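import Pool.Agent.N783.PF.Loc
import Pool.Agent.N874.QM.Stm

/-!
# 2-extensions of a number field `F`, uniformly: statements of the parts

Project TF (helper874): the version over every number field `F` of project TQ, based on project PF
(helper783). And statements for project TC (helper874): project TQ without real conditions.
-/

set_option autoImplicit false
set_option linter.all false

open Polynomial IsDedekindDomain NumberField
open scoped Classical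

namespace Pool.Agent.N874.TF

open Pool.Agent.N352.PJ (dd pol dis Dy D2)
open Pool.Agent.N783.PF (Bd Cg sp rd Ht GoodS GoodF Fam fF)

/-- Irreducible polynomials of odd degree with trace zero over a finite field (for a prime field this is
`Pool.Agent.N394.QM.irr`). -/
def S_IRRK : Prop := ∀ (k : Type) [Field k] [Finite k] (g : ℕ), 1 ≤ g → ∃ f : k[X], f.Monic ∧
  f.natDegree = 2 * g + 1 ∧ f.coeff (2 * g) = 0 ∧ Irreducible f

/-- Many `f` in the family of project PF, with `f₁` irreducible modulo all primes over `W` (compare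
`Pool.Agent.N352.PF.famT` and, over `ℚ`, `Pool.Agent.N849.QM.fami`). -/
def S_FAMF : Prop := ∀ (F : Type) [Field F] [NumberField F] (g : ℕ), 1 ≤ g →
  ∀ K M : ℕ, ∃ (W : ℕ) (f₁ : (𝓞 F)[X]), K ≤ W ∧ GoodF g W f₁ ∧
  (∀ p : ℕ, p.Prime → p ≤ M → p ∣ W) ∧
  (∀ 𝔭 : Ideal (𝓞 F), 𝔭.IsPrime → (W : 𝓞 F) ∈ 𝔭 → Irreducible (rd 𝔭 f₁)) ∧
  ∃ c : ℝ, 0 < c ∧ ∀ (S : Finset ℕ) (𝔮 : ℕ → Ideal (𝓞 F)) (h P : ℕ → (𝓞 F)[X]),
    GoodS g W S 𝔮 h P → ∃ B₀ : ℕ, ∀ B ≥ B₀,
    c * (B : ℝ) ^ (Module.finrank ℚ F * dd g) ≤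
      (((∏ q ∈ S, q ^ (2 * g)) ^ Module.finrank ℚ F : ℕ) : ℝ) *
      ({f : (𝓞 F)[X] | Fam g B W f₁ S P f}.ncard : ℝ)

/-- An embedding of `M` in the completion of `F` at `v` extends to a completion of `M` (compare
`Pool.Agent.N438.QM.Emb.emb`). -/
def S_EMBF : Prop := ∀ (F M : Type) [Field F] [NumberField F] [Field M] [NumberField M]
  [Algebra F M] (v : HeightOneSpectrum (𝓞 F)) (σ : M →+* v.adicCompletion F),
  (∀ x : F, σ (algebraMap F M x) = algebraMap F (v.adicCompletion F) x) →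
  ∃ (w : HeightOneSpectrum (𝓞 M)) (j : w.adicCompletion M →+* v.adicCompletion F),
    ∀ x : M, j (algebraMap M (w.adicCompletion M) x) = σ x

end Pool.Agent.N874.TF

namespace Pool.Agent.N874.TC

open Pool.Agent.N352.PJ (dd pol dis Dy D2)
open Pool.Agent.N783.PQ

/-- `S_SML` with any constant `K` instead of 4 (compare `Pool.Agent.N595.PQ.sml`, `one_prime`). -/
def S_SMLK : Prop := ∀ g : ℕ, 1 ≤ g → ∀ K : ℕ, ∃ M : ℕ, ∀ (B W : ℕ) (A : Fin (2 * g) → ℤ),
  0 < W → W ≤ B →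
  K * {a ∈ Bx g B W A | ∃ P : ℕ, P.Prime ∧ M < P ∧ P ^ 2 < B ∧ ¬ P ∣ W ∧
    (P : ℤ) ^ 2 ∣ dis a}.ncard ≤ (Bx g B W A).ncard

/-- The derivative of `f` is positive on the real line. -/
def Mono (f : ℤ[X]) : Prop := ∀ x : ℝ, 0 < (derivative (ov ℝ f)).eval x

/-- Many `f` in the family, with positive derivative (compare `Pool.Agent.N849.QM.fami`). -/
def S_FAMR : Prop := ∀ g M : ℕ, 1 ≤ g → ∃ (W : ℕ) (f₁ : ℤ[X]), GoodF g W f₁ ∧
  (∀ p : ℕ, p.Prime → p ≤ M → p ∣ W) ∧ (∀ p : ℕ, p.Prime → p ∣ W → Irreducible (rd p f₁)) ∧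
  ∃ c : ℝ, 0 < c ∧ ∀ (S : Finset ℕ) (h : ℕ → ℤ[X]), GoodS g W S h → ∃ B₀ : ℕ, ∀ B ≥ B₀,
    c * (B : ℝ) ^ dd g ≤ ((∏ q ∈ S, q ^ (2 * g) : ℕ) : ℝ) *
      ({f : ℤ[X] | Fam g B W f₁ S h f ∧ Mono f}.ncard : ℝ)

/-- If the derivative of `f` is positive on the real line, then all real classes with square norm are
trivial (there is one real zero `r`; the norm is `h(r)` times a positive number). -/
def S_ONE : Prop := ∀ (g : ℕ) (f h : ℝ[X]), f.Monic → f.natDegree = 2 * g + 1 →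
  (∀ x : ℝ, 0 < (derivative f).eval x) → Squarefree f → IsCoprime h f →
  IsSquare (Algebra.norm ℝ (AdjoinRoot.mk f h)) → ∃ s : ℝ[X], f ∣ h - s ^ 2

end Pool.Agent.N874.TC
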