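import Pool.Agent.N874.TF.Fin

/-!
# Cubic polynomials

Project TF (helper874).
-/

set_option autoImplicit false
set_option linter.all false

open Polynomial IsDedekindDomain NumberField
open Pool.Agent.N783.PF (fF Ht Bd Min Crv S_PTS SqF rd)
open Pool.Agent.N61.PF (pol pol_coeff0 pol_coeff1 pol_coeff2 pol_natDegree pol_monic)
open scoped Classical

namespace Pool.Agent.N874.TF

variable {F : Type} [Field F] [NumberField F]

theorem dsc_pol (a b : 𝓞 F) : Pool.Agent.N783.PF.dsc 1 (pol a b) = 4 * a ^ 3 + 27 * b ^ 2 := by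
  have hm := pol_monic a b
  have hd := pol_natDegree a b
  have hd' : (pol a b).degree = 3 := by
    rw [degree_eq_natDegree hm.ne_zero, hd]; rfl
  have h1 := resultant_deriv (f := pol a b) (by rw [hd']; norm_num)
  rw [hd, discr_of_degree_eq_three hd', hm.leadingCoeff] at h1
  unfold Pool.Agent.N783.PF.dsc
  change (pol a b).resultant _ 3 2 = _
  rw [h1]
  simp [pol, coeff_X, coeff_C]
  ring

theorem eq_pol' {f : (𝓞 F)[X]} (hm : f.Monic) (hd : f.natDegree = 3) (h2 : f.coeff 2 = 0) :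
    f = pol (f.coeff 1) (f.coeff 0) := by
  have h3 : f.coeff 3 = 1 := by
    have := hm.coeff_natDegree
    rwa [hd] at this
  refine Polynomial.ext fun n => ?_
  rcases lt_or_ge n 4 with hn | hn
  · interval_cases n
    · rw [pol_coeff0]
    · rw [pol_coeff1]
    · rw [pol_coeff2, h2]
    · rw [h3]
      have := (pol_monic (f.coeff 1) (f.coeff 0)).coeff_natDegree
      rw [pol_natDegree] at this
      exact this.symm
  · rw [coeff_eq_zero_of_natDegree_lt (by omega), coeff_eq_zero_of_natDegree_lt (by rw [pol_natDegree]; omega)]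

/-- The condition on the discriminant in terms of the coefficients. -/
theorem tws_pol {Qs : Set (Ideal (𝓞 F))} {f : (𝓞 F)[X]} (hm : f.Monic) (hd : f.natDegree = 3)
    (h2 : f.coeff 2 = 0) (h : Tws 1 Qs f) :
    ∃ (D : ℕ) (a b : 𝓞 F), (∀ v : HeightOneSpectrum (𝓞 F), 4 * a ^ 3 + 27 * b ^ 2 ∉ v.asIdeal ^ 2) ∧
      f.coeff 1 = (D : 𝓞 F) ^ 2 * a ∧ f.coeff 0 = (D : 𝓞 F) ^ 3 * b ∧ Squarefree D ∧
      (∀ q : ℕ, q.Prime → q ∣ D → q % 8 = 1) ∧
      ∀ v : HeightOneSpectrum (𝓞 F), (D : 𝓞 F) ∈ v.asIdeal →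
        v.asIdeal ∈ Qs ∨ Irreducible (rd v.asIdeal (pol a b)) := by
  obtain ⟨D, f₀, h3, rfl, h5, h6, h7⟩ := h
  have hm₀ : f₀.Monic := (monic_scaleRoots_iff _).1 hm
  have hd₀ : f₀.natDegree = 3 := by rwa [natDegree_scaleRoots] at hd
  have hD0 : (D : 𝓞 F) ≠ 0 := Nat.cast_ne_zero.2 h5.ne_zero
  have h2₀ : f₀.coeff 2 = 0 := by
    rw [coeff_scaleRoots, mul_eq_zero] at h2
    exact h2.resolve_right (pow_ne_zero _ hD0)
  have he := eq_pol' hm₀ hd₀ h2₀
  refine ⟨D, f₀.coeff 1, f₀.coeff 0, fun v => ?_, ?_, ?_, h5, h6, ?_⟩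
  · rw [← dsc_pol, ← he]
    exact h3 v.asIdeal v.isPrime v.ne_bot
  · rw [coeff_scaleRoots, hd₀, mul_comm]
  · rw [coeff_scaleRoots, hd₀, mul_comm]
  · intro v hv
    rw [← he]
    exact h7 v hv

end Pool.Agent.N874.TF
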