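import Pool.Agent.N874.TF.Ell
import Pool.Agent.N783.PF.Final
import Pool.Agent.N874.QM.Final
import Pool.Agent.N250.TF.Irr
import Pool.Agent.N300.TF.Famf
import Pool.Agent.N488.TF.Embf

/-!
# All the parts of project TF

Project TF (helper874).
-/

set_option autoImplicit false
set_option linter.all false

open Polynomial IsDedekindDomain NumberField
open Pool.Agent.N783.PF (fF Ht Bd Min Crv S_PTS SqF rd)
open scoped Classical

namespace Pool.Agent.N874.TF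

theorem parts : Parts where
  cls := Pool.Agent.N457.PQ.cls
  sqt := Pool.Agent.N457.PQ.sqt
  csq := Pool.Agent.N783.PF.csq
  par := Pool.Agent.N426.PF.par Pool.Agent.N783.PF.int
  parq := Pool.Agent.N426.PF.parq Pool.Agent.N783.PF.int Pool.Agent.N783.PF.exq
  pin := Pool.Agent.N426.PF.pin Pool.Agent.N783.PF.int
  ram := Pool.Agent.N459.PF.ram Pool.Agent.N783.PF.int
  sqf := Pool.Agent.N783.PF.sqf
  irr := Pool.Agent.N667.PF.irr
  core := Pool.Agent.N783.PF.core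
  min := Pool.Agent.N547.PF.min
  sig := Pool.Agent.N756.QM.sig
  lie := Pool.Agent.N756.QM.lie
  emb := Pool.Agent.N488.TF.Embf.embf
  tow := Pool.Agent.N874.JM.parts.tow
  loc1 := Pool.Agent.N874.JM.parts.loc1
  loc2 := Pool.Agent.N874.JM.parts.loc2

/-- The theorem on the explicit 2-Selmer groups. -/
theorem final (F : Type) [Field F] [NumberField F] {g : ℕ} (hg : 1 ≤ g)
    (T : Finset (HeightOneSpectrum (𝓞 F))) :
    ∃ Q : Finset (HeightOneSpectrum (𝓞 F)), Disjoint Q T ∧ (∀ v ∈ Q, (2 : 𝓞 F) ∉ v.asIdeal) ∧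
    ∃ c : ℝ, 0 < c ∧ ∃ B₀ : ℕ, ∀ B ≥ B₀,
    {f : (𝓞 F)[X] | Ht g B f}.Finite ∧ c * ({f : (𝓞 F)[X] | Ht g B f}.ncard : ℝ) ≤
      ({f : (𝓞 F)[X] | Ht g B f ∧ Irreducible (fF f) ∧
        (∀ v : HeightOneSpectrum (𝓞 F), (2 : 𝓞 F) ∈ v.asIdeal → Irreducible (rd v.asIdeal f)) ∧
        (∀ v ∈ T, Irreducible (rd v.asIdeal f)) ∧
        Tws g {𝔭 | ∃ v ∈ Q, 𝔭 = v.asIdeal} f ∧ Uni {𝔭 | ∃ v ∈ Q, 𝔭 = v.asIdeal} f f ∧
        Min g f}.ncard : ℝ) :=
  mainF parts Pool.Agent.N667.PF.gen Pool.Agent.N490.PF.pts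
    (Pool.Agent.N300.TF.famf Pool.Agent.N250.TF.irrk) Pool.Agent.N783.PF.bad
    Pool.Agent.N710.PF.exs F hg T

end Pool.Agent.N874.TF
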