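import Pool.Agent.N874.TF.Top
import Pool.Agent.N874.QM.Top2

/-!
# The conditions at the places over 2 and at infinity, over the extension

Project TF (helper874), after project QM.
-/

set_option autoImplicit false
set_option linter.all false

open Polynomial IsDedekindDomain NumberField
open Pool.Agent.N783.PF (Ov IsGen fF GoodS SqF Cg rd)
open Pool.Agent.N783.PQ (LocIm S_SQT)
open Pool.Agent.N874.JM (LocF)
open Pool.Agent.N874.QM (locIm_sq locIm_congr locIm_map)
open scoped Classical IntermediateField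

namespace Pool.Agent.N874.TF

section arc

variable {F M Ω : Type} [Field F] [NumberField F] [Field M] [NumberField M] [Field Ω]
  [NumberField Ω] [Algebra F M] [Algebra F Ω] [Algebra M Ω] [IsScalarTower F M Ω]

theorem fM_map (M : Type) [Field M] [NumberField M] [Algebra F M] (f : (𝓞 F)[X]) {E : Type}
    [Field E] (σ : M →+* E) : (fM M f).map σ = (fF f).map (σ.comp (algebraMap F M)) :=
  Polynomial.map_map (algebraMap F M) σ (fF f)

/-- The conditions at the places over 2 and at infinity. -/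
def Arc (M : Type) {Ω : Type} [Field M] [NumberField M] [Algebra F M] [Field Ω] [Algebra M Ω]
    (f : (𝓞 F)[X]) (θ x : Ω) : Prop :=
  ∃ h : M[X], aeval θ h = x ∧
    (∀ v : HeightOneSpectrum (𝓞 F), (2 : 𝓞 F) ∈ v.asIdeal → ∀ σ : M →+* v.adicCompletion F,
      (∀ y : F, σ (algebraMap F M y) = algebraMap F (v.adicCompletion F) y) →
      LocIm (v.adicCompletion F) ((fF f).map (algebraMap F (v.adicCompletion F))) (h.map σ)) ∧
    ∀ ρ : M →+* ℝ, LocIm ℝ ((fM M f).map ρ) (h.map ρ)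

variable {f : (𝓞 F)[X]} {θ : Ω}

theorem arc_sq (hgen : ∀ y : Ω, ∃ h : M[X], aeval θ h = y) (x : Ω) : Arc M f θ (x ^ 2) := by
  obtain ⟨h, rfl⟩ := hgen x
  refine ⟨h ^ 2, by rw [map_pow], fun v hv σ hσ => ?_, fun ρ => ?_⟩
  · rw [Polynomial.map_pow]
    exact locIm_sq _ _
  · rw [Polynomial.map_pow]
    exact locIm_sq _ _

theorem arc_mul {x y : Ω} (h : Arc M f θ x) (h' : Arc M f θ y) : Arc M f θ (x * y) := by
  obtain ⟨a, rfl, a1, a2⟩ := h
  obtain ⟨b, rfl, b1, b2⟩ := h'
  refine ⟨a * b, by rw [map_mul], fun v hv σ hσ => ?_, fun ρ => ?_⟩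
  · rw [Polynomial.map_mul]
    exact Pool.Agent.N891.PQ.LocIm.mul (a1 v hv σ hσ) (b1 v hv σ hσ)
  · rw [Polynomial.map_mul]
    exact Pool.Agent.N891.PQ.LocIm.mul (a2 ρ) (b2 ρ)

theorem arc_sig [IsGalois F M] {L : Type} [Field L] [NumberField L] [Algebra F L] [Algebra L Ω]
    [IsScalarTower F L Ω] {θ₀ : L}
    (hθ : θ = algebraMap L Ω θ₀) (σ : Ω ≃ₐ[L] Ω) {x : Ω} (h : Arc M f θ x) :
    Arc M f θ (σ x) := by
  obtain ⟨a, rfl, a1, a2⟩ := h
  set τ : M ≃ₐ[F] M := (σ.restrictScalars F).restrictNormal M with hτ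
  have hτ' : ∀ y : M, algebraMap M Ω (τ y) = σ (algebraMap M Ω y) := fun y =>
    AlgEquiv.restrictNormal_commutes (σ.restrictScalars F) M y
  have hσθ : σ θ = θ := by rw [hθ, σ.commutes]
  refine ⟨a.map (τ : M →+* M), ?_, fun v hv ρ hρ => ?_, fun ρ => ?_⟩
  · rw [aeval_def, eval₂_map, aeval_def]
    have e : (algebraMap M Ω).comp (τ : M →+* M) = (σ : Ω →+* Ω).comp (algebraMap M Ω) :=
      RingHom.ext fun y => hτ' y
    have h1 := hom_eval₂ a (algebraMap M Ω) (σ : Ω →+* Ω) θ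
    rw [e]
    have h2 : (σ : Ω →+* Ω) θ = θ := hσθ
    rw [h2] at h1
    exact h1.symm
  · rw [show (a.map (τ : M →+* M)).map ρ = a.map (ρ.comp (τ : M →+* M)) from
      Polynomial.map_map _ _ _]
    refine a1 v hv _ fun y => ?_
    change ρ (τ (algebraMap F M y)) = _
    rw [τ.commutes]
    exact hρ y
  · rw [show (a.map (τ : M →+* M)).map ρ = a.map (ρ.comp (τ : M →+* M)) from
      Polynomial.map_map _ _ _]
    have h3 := a2 (ρ.comp (τ : M →+* M))
    have e : (fM M f).map (ρ.comp (τ : M →+* M)) = (fM M f).map ρ := by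
      rw [fM_map, fM_map]
      congr 1
      refine RingHom.ext fun y => ?_
      change ρ (τ (algebraMap F M y)) = ρ (algebraMap F M y)
      rw [τ.commutes]
    rw [e] at h3
    exact h3

/-- From the conditions over the extension to the local conditions over `F`. -/
theorem arc_down {L : Type} [Field L] [NumberField L] [Algebra F L] [Algebra L Ω]
    [IsScalarTower F L Ω] {θ x : L} {g : ℕ} (hc : IsGen g f θ)
    (hmin : minpoly M (algebraMap L Ω θ) = fM M f)
    (h2M : ∀ v : HeightOneSpectrum (𝓞 F), (2 : 𝓞 F) ∈ v.asIdeal →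
      ∃ σ : M →+* v.adicCompletion F, ∀ y : F, σ (algebraMap F M y) =
        algebraMap F (v.adicCompletion F) y)
    (hrM : ∀ ρ₀ : F →+* ℝ, ∃ ρ : M →+* ℝ, ρ.comp (algebraMap F M) = ρ₀)
    (h : Arc M f (algebraMap L Ω θ) (algebraMap L Ω x)) :
    ∃ h₀ : F[X], aeval θ h₀ = x ∧
      (∀ w : HeightOneSpectrum (𝓞 F), (2 : 𝓞 F) ∈ w.asIdeal →
        LocF (w.adicCompletion F) (fF f) h₀) ∧
      ∀ ρ : F →+* ℝ, LocIm ℝ ((fF f).map ρ) (h₀.map ρ) := by
  obtain ⟨a, ha, a1, a2⟩ := h
  obtain ⟨c, hx⟩ := hc.gen x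
  obtain ⟨h₀, hh₀⟩ : ∃ h₀ : F[X], h₀ = ∑ i, C (c i) * X ^ (i : ℕ) := ⟨_, rfl⟩
  have h1 : aeval θ h₀ = x := by
    rw [hh₀, map_sum, hx]
    refine Finset.sum_congr rfl fun i _ => ?_
    rw [map_mul, map_pow, aeval_X, aeval_C]
  have h2 : fM M f ∣ a - h₀.map (algebraMap F M) := by
    rw [← hmin]
    apply minpoly.dvd
    rw [map_sub, ha, aeval_map_algebraMap, aeval_algebraMap_apply, h1, sub_self]
  have key : ∀ (E : Type) [Field E] (ρ : M →+* E),
      LocIm E ((fM M f).map ρ) (a.map ρ) →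
      LocIm E ((fM M f).map ρ) ((h₀.map (algebraMap F M)).map ρ) := by
    intro E _ ρ H
    refine locIm_congr ?_ H
    have h3 := Polynomial.map_dvd ρ h2
    rw [Polynomial.map_sub] at h3
    exact h3
  refine ⟨h₀, h1, fun w hw => ?_, fun ρ₀ => ?_⟩
  · obtain ⟨σ, hσ⟩ := h2M w hw
    have e : σ.comp (algebraMap F M) = algebraMap F (w.adicCompletion F) := RingHom.ext hσ
    have h3 := key _ σ (by
      rw [fM_map, e]
      exact a1 w hw σ hσ)
    rw [fM_map, show (h₀.map (algebraMap F M)).map σ = h₀.map (σ.comp (algebraMap F M)) from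
      Polynomial.map_map _ _ _, e] at h3
    exact h3
  · obtain ⟨ρ, hρ⟩ := hrM ρ₀
    have h3 := key _ ρ (a2 ρ)
    rw [fM_map, show (h₀.map (algebraMap F M)).map ρ = h₀.map (ρ.comp (algebraMap F M)) from
      Polynomial.map_map _ _ _, hρ] at h3
    exact h3

theorem sq_two' {v : HeightOneSpectrum (𝓞 F)} (hv : (2 : 𝓞 F) ∈ v.asIdeal) (D : ℕ)
    (hD : D % 8 = 1) : ∃ δ : v.adicCompletion F, δ ^ 2 = (D : v.adicCompletion F) := by
  haveI : Fact (Nat.Prime 2) := ⟨Nat.prime_two⟩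
  obtain ⟨δ, hδ⟩ := Pool.Agent.N891.PQ.sq_two D hD
  obtain ⟨ι, hι, -, -⟩ := Pool.Agent.N498.PQ.cpl F 2 v (by
    change ((2 : ℕ) : 𝓞 F) ∈ v.asIdeal
    exact_mod_cast hv)
  exact ⟨ι δ, by rw [← map_pow, hδ, map_natCast]⟩

theorem arc_top (hEMB : S_EMBF) (hSQT : S_SQT) {g : ℕ} (hm : f.Monic)
    (hd : f.natDegree = 2 * g + 1) {D : ℕ} (hD : D % 8 = 1) {h : M[X]}
    (hloc : ∀ w : HeightOneSpectrum (𝓞 M), LocF (w.adicCompletion M)
      ((fM M f).scaleRoots (D : M)) h)
    (hr : ∀ ρ : M →+* ℝ, LocIm ℝ (((fM M f).scaleRoots (D : M)).map ρ) (h.map ρ)) :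
    Arc M f θ (aeval ((D : Ω) * θ) h) := by
  have hD0 : D ≠ 0 := by
    rintro rfl
    simp at hD
  have hmM : (fM M f).Monic := (hm.map _).map _
  have hdM : (fM M f).natDegree = 2 * g + 1 := by
    rw [fM, (hm.map _).natDegree_map, hm.natDegree_map, hd]
  have hcomp : ∀ (E : Type) [Field E] (σ : M →+* E),
      (h.comp (C (D : M) * X)).map σ = (h.map σ).comp (C (D : E) * X) := by
    intro E _ σ
    rw [Polynomial.map_comp, Polynomial.map_mul, map_C, map_X, map_natCast]
  have hsc : ∀ (E : Type) [Field E] (σ : M →+* E),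
      ((fM M f).scaleRoots (D : M)).map σ = ((fM M f).map σ).scaleRoots (D : E) := by
    intro E _ σ
    rw [map_scaleRoots]
    · rw [map_natCast]
    · rw [hmM.leadingCoeff, map_one]
      exact one_ne_zero
  have key : ∀ (E : Type) [Field E] [CharZero E] (σ : M →+* E) (δ : E), δ ^ 2 = (D : E) →
      LocIm E (((fM M f).scaleRoots (D : M)).map σ) (h.map σ) →
      LocIm E ((fM M f).map σ) ((h.comp (C (D : M) * X)).map σ) := by
    intro E _ _ σ δ hδ H
    have hδ0 : δ ≠ 0 := by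
      intro h0
      rw [h0, zero_pow two_ne_zero] at hδ
      exact hD0 (by exact_mod_cast hδ.symm)
    have h1 := hSQT E g ((fM M f).map σ) (h.map σ) δ (hmM.map _) (by
      rw [hmM.natDegree_map, hdM]) hδ0
    rw [hδ] at h1
    rw [hsc] at H
    rw [hcomp]
    exact h1 H
  refine ⟨h.comp (C (D : M) * X), ?_, fun v hv σ hσ => ?_, fun ρ => ?_⟩
  · rw [aeval_comp]
    congr 1
    rw [map_mul, aeval_C, aeval_X, map_natCast]
  · obtain ⟨w, j, hj⟩ := hEMB F M v σ hσ
    have h1 : LocIm (w.adicCompletion M)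
        (((fM M f).scaleRoots (D : M)).map (algebraMap M (w.adicCompletion M)))
        (h.map (algebraMap M (w.adicCompletion M))) := hloc w
    have h2 := locIm_map j h1
    have e : j.comp (algebraMap M (w.adicCompletion M)) = σ := RingHom.ext hj
    rw [show (((fM M f).scaleRoots (D : M)).map (algebraMap M (w.adicCompletion M))).map j =
      ((fM M f).scaleRoots (D : M)).map (j.comp (algebraMap M (w.adicCompletion M))) from
      Polynomial.map_map _ _ _, Polynomial.map_map (algebraMap M (w.adicCompletion M)) j h, e] at h2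
    obtain ⟨δ, hδ⟩ := sq_two' hv D hD
    haveI : CharZero (v.adicCompletion F) :=
      charZero_of_injective_algebraMap (algebraMap F (v.adicCompletion F)).injective
    have h3 := key _ σ δ hδ h2
    have e2 : (fM M f).map σ = (fF f).map (algebraMap F (v.adicCompletion F)) := by
      rw [fM_map]
      congr 1
      exact RingHom.ext hσ
    rw [e2] at h3
    exact h3
  · refine key ℝ ρ (Real.sqrt D) ?_ (hr ρ)
    exact Real.sq_sqrt (Nat.cast_nonneg D)

end arc

end Pool.Agent.N874.TF
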