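import Pool.Agent.N874.TF.Gen
import Pool.Agent.N874.TQ.Cnd

/-!
# The conditions over the extension

Project TF (helper874), after project TQ.
-/

set_option autoImplicit false
set_option linter.all false

open Polynomial IsDedekindDomain NumberField
open Pool.Agent.N874.PP (Ev Sq1 U0)
open Pool.Agent.N874.PM (Lies ev_down sq_down ev_sq ev_mul)
open Pool.Agent.N783.PQ (S_CLS)
open Pool.Agent.N874.QM (S_SIG)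
open Pool.Agent.N783.PF (Ov IsGen fF GoodS SqF Cg rd)
open scoped Classical IntermediateField

namespace Pool.Agent.N874.TF

section cond

variable {F Ω : Type} [Field F] [NumberField F] [Field Ω] [NumberField Ω] [Algebra F Ω]

/-- The conditions at the odd primes. -/
structure Cnd (J : Finset ℕ) (𝔮 : ℕ → Ideal (𝓞 F)) (T : Set (Ideal (𝓞 F))) (θ η x : Ω) : Prop where
  ev : ∀ 𝔓 : HeightOneSpectrum (𝓞 Ω), (∀ 𝔭 ∈ T, ¬ Ov 𝔭 𝔓) → (∀ q ∈ J, ¬ Ov (𝔮 q) 𝔓) →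
    𝔓.valuation Ω η = 1 → Ev 𝔓 x
  u0 : ∀ q ∈ J, ∀ 𝔓 : HeightOneSpectrum (𝓞 Ω), Ov (𝔮 q) 𝔓 → 𝔓.valuation Ω θ = 1 →
    U0 𝔓 ((q : Ω) * θ) x

variable {J : Finset ℕ} {𝔮 : ℕ → Ideal (𝓞 F)} {T : Set (Ideal (𝓞 F))} {θ η : Ω}

theorem cnd_sq {x : Ω} (hx : x ≠ 0) : Cnd J 𝔮 T θ η (x ^ 2) where
  ev 𝔓 _ _ _ := ev_sq 𝔓 x
  u0 q _ 𝔓 _ _ := by
    refine ⟨fun _ => ⟨x, ?_⟩, fun h => absurd (ev_sq 𝔓 x) h⟩
    rw [sub_self, map_zero, zero_lt_iff]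
    exact (Valuation.ne_zero_iff _).2 (pow_ne_zero _ hx)

theorem cnd_mul (hCLS : S_CLS) (hJ : ∀ q ∈ J, q.Prime ∧ q ≠ 2)
    (hO : ∀ q ∈ J, ∀ 𝔓 : HeightOneSpectrum (𝓞 Ω), Ov (𝔮 q) 𝔓 → Pool.Agent.N783.PQ.Ov q 𝔓)
    (hϖ : ∀ q ∈ J, ∀ 𝔓 : HeightOneSpectrum (𝓞 Ω), Ov (𝔮 q) 𝔓 → 𝔓.valuation Ω θ = 1 →
      ¬ Ev 𝔓 ((q : Ω) * θ)) {x y : Ω} (hx : x ≠ 0) (hy : y ≠ 0)
    (h : Cnd J 𝔮 T θ η x) (h' : Cnd J 𝔮 T θ η y) : Cnd J 𝔮 T θ η (x * y) where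
  ev 𝔓 h1 h2 h3 := ev_mul (h.ev 𝔓 h1 h2 h3) (h'.ev 𝔓 h1 h2 h3)
  u0 q hq 𝔓 h1 h3 := by
    have h4 := hϖ q hq 𝔓 h1 h3
    have h5 : (q : Ω) * θ ≠ 0 := by
      intro h0
      apply h4
      rw [h0]
      exact ⟨0, by simp⟩
    exact ((hCLS Ω q 𝔓 _ (hJ q hq).1 (hJ q hq).2 (hO q hq 𝔓 h1) h5 h4 x y hx hy).2).2
      ⟨fun _ => h'.u0 q hq 𝔓 h1 h3, fun _ => h.u0 q hq 𝔓 h1 h3⟩

theorem cnd_sig (hSIG : S_SIG) {L : Type} [Field L] [NumberField L] [Algebra F L] [Algebra L Ω]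
    [IsScalarTower F L Ω]
    {θ₀ η₀ : L} (hθ : θ = algebraMap L Ω θ₀) (hη : η = algebraMap L Ω η₀)
    (σ : Ω ≃ₐ[L] Ω) {x : Ω} (h : Cnd J 𝔮 T θ η x) : Cnd J 𝔮 T θ η (σ x) := by
  have hf : ∀ y : L, σ (algebraMap L Ω y) = algebraMap L Ω y := fun y => σ.commutes y
  have key := hSIG Ω (σ.restrictScalars ℚ)
  have hov : ∀ (𝔓 𝔓' : HeightOneSpectrum (𝓞 Ω)),
      (∀ y : Ω, 𝔓'.valuation Ω y = 𝔓.valuation Ω (σ y)) →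
      ∀ 𝔭 : Ideal (𝓞 F), Ov 𝔭 𝔓' ↔ Ov 𝔭 𝔓 := by
    intro 𝔓 𝔓' hv 𝔭
    rw [ov_val, ov_val]
    refine forall₂_congr fun a _ => ?_
    rw [IsScalarTower.algebraMap_apply F L Ω, hv, hf]
  have hev : ∀ (𝔓 𝔓' : HeightOneSpectrum (𝓞 Ω)),
      (∀ y : Ω, 𝔓'.valuation Ω y = 𝔓.valuation Ω (σ y)) →
      ∀ y : Ω, Ev 𝔓' y ↔ Ev 𝔓 (σ y) := by
    intro 𝔓 𝔓' hv y
    constructor
    · rintro ⟨z, hz⟩
      exact ⟨σ z, by rw [← hv, ← hv, hz]⟩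
    · rintro ⟨z, hz⟩
      refine ⟨σ.symm z, ?_⟩
      rw [hv, hv, σ.apply_symm_apply, hz]
  have hsq : ∀ (𝔓 𝔓' : HeightOneSpectrum (𝓞 Ω)),
      (∀ y : Ω, 𝔓'.valuation Ω y = 𝔓.valuation Ω (σ y)) →
      ∀ y : Ω, Sq1 𝔓' y → Sq1 𝔓 (σ y) := by
    rintro 𝔓 𝔓' hv y ⟨z, hz⟩
    refine ⟨σ z, ?_⟩
    rw [hv, hv, map_sub, map_pow] at hz
    exact hz
  refine ⟨fun 𝔓 h1 h2 h3 => ?_, fun q hq 𝔓 h1 h2 => ?_⟩
  · obtain ⟨𝔓', hv, -⟩ := key 𝔓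
    have hv' : ∀ y : Ω, 𝔓'.valuation Ω y = 𝔓.valuation Ω (σ y) := hv
    have hO := hov 𝔓 𝔓' hv'
    exact (hev 𝔓 𝔓' hv' x).1 (h.ev 𝔓' (fun p hp hc => h1 p hp ((hO p).1 hc))
      (fun q hq hc => h2 q hq ((hO _).1 hc)) (by rw [hv', hη, hf, ← hη]; exact h3))
  · obtain ⟨𝔓', hv, -⟩ := key 𝔓
    have hv' : ∀ y : Ω, 𝔓'.valuation Ω y = 𝔓.valuation Ω (σ y) := hv
    have hO := hov 𝔓 𝔓' hv'
    have h3 := h.u0 q hq 𝔓' ((hO _).2 h1) (by rw [hv', hθ, hf, ← hθ]; exact h2)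
    refine ⟨fun h4 => hsq 𝔓 𝔓' hv' x (h3.1 ((hev 𝔓 𝔓' hv' x).2 h4)), fun h4 => ?_⟩
    have h5 := hsq 𝔓 𝔓' hv' _ (h3.2 fun h6 => h4 ((hev 𝔓 𝔓' hv' x).1 h6))
    rw [map_mul, map_mul, map_natCast, hθ, hf, ← hθ] at h5
    exact h5

end cond

section base

variable {F L Ω : Type} [Field F] [NumberField F] [Field L] [NumberField L] [Field Ω]
  [NumberField Ω] [Algebra F L] [Algebra F Ω] [Algebra L Ω] [IsScalarTower F L Ω]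

theorem base_sq {θ η : L} {J : Finset ℕ} {𝔮 : ℕ → Ideal (𝓞 F)} {T : Set (Ideal (𝓞 F))}
    (hJm : ∀ q ∈ J, (𝔮 q).IsPrime ∧ 𝔮 q ≠ ⊥) (hTm : ∀ 𝔭 ∈ T, 𝔭.IsPrime ∧ 𝔭 ≠ ⊥)
    (hUR : ∀ 𝔓 : HeightOneSpectrum (𝓞 L), (∀ 𝔭 ∈ T, ¬ Ov 𝔭 𝔓) → 𝔓.valuation L η = 1 →
      ∃ 𝔓' : HeightOneSpectrum (𝓞 Ω),
      ∀ x : L, 𝔓'.valuation Ω (algebraMap L Ω x) = 𝔓.valuation L x)
    (hSP : ∀ q ∈ J, ∀ 𝔓 : HeightOneSpectrum (𝓞 L), Ov (𝔮 q) 𝔓 → 𝔓.valuation L θ = 1 →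
      ∃ 𝔓' : HeightOneSpectrum (𝓞 Ω),
      (∀ x : L, 𝔓'.valuation Ω (algebraMap L Ω x) = 𝔓.valuation L x) ∧
      ∀ s : Ω, s ≠ 0 → ∃ s₀ : L, 𝔓'.valuation Ω (s - algebraMap L Ω s₀) < 𝔓'.valuation Ω s)
    (hη : ∀ 𝔓 : HeightOneSpectrum (𝓞 L), 𝔓.valuation L η ≤ 1)
    (hθ : ∀ 𝔓 : HeightOneSpectrum (𝓞 L), 𝔓.valuation L θ ≤ 1)
    (hT : ∀ 𝔭 ∈ T, ∀ x : L, x ≠ 0 → IsSquare (Algebra.norm F x) →
      ∀ 𝔓 : HeightOneSpectrum (𝓞 L), Ov 𝔭 𝔓 → Ev 𝔓 x)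
    (hRAM : ∀ 𝔭 : Ideal (𝓞 F), 𝔭.IsPrime → 𝔭 ≠ ⊥ → ∀ 𝔓₀ : HeightOneSpectrum (𝓞 L), Ov 𝔭 𝔓₀ →
      𝔓₀.valuation L η < 1 → (∃ c : 𝓞 F, 𝔓₀.valuation L (θ - algebraMap F L (c : F)) < 1) ∧
      ∀ 𝔓 : HeightOneSpectrum (𝓞 L), Ov 𝔭 𝔓 → 𝔓 ≠ 𝔓₀ → 𝔓.valuation L η = 1)
    (hPAR : ∀ 𝔭 : Ideal (𝓞 F), 𝔭.IsPrime → 𝔭 ≠ ⊥ → ∀ (𝔓₀ : HeightOneSpectrum (𝓞 L)) (c : 𝓞 F),
      Ov 𝔭 𝔓₀ → 𝔓₀.valuation L (θ - algebraMap F L (c : F)) < 1 → ∀ x : L, x ≠ 0 →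
      IsSquare (Algebra.norm F x) →
      (∀ 𝔓 : HeightOneSpectrum (𝓞 L), Ov 𝔭 𝔓 → 𝔓 ≠ 𝔓₀ → Ev 𝔓 x) → Ev 𝔓₀ x)
    (hPARQ : ∀ q ∈ J, ∀ x : L, x ≠ 0 → IsSquare (Algebra.norm F x) →
      ∀ 𝔓 : HeightOneSpectrum (𝓞 L), Ov (𝔮 q) 𝔓 → 𝔓.valuation L θ < 1 → Ev 𝔓 x)
    {x : L} (hx : x ≠ 0) (hN : IsSquare (Algebra.norm F x))
    (hC : Cnd J 𝔮 T (algebraMap L Ω θ) (algebraMap L Ω η) (algebraMap L Ω x)) :
    (∀ 𝔓 : HeightOneSpectrum (𝓞 L), (∀ q ∈ J, Ov (𝔮 q) 𝔓 → 𝔓.valuation L θ ≠ 1) → Ev 𝔓 x) ∧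
      (∀ q ∈ J, ∀ 𝔓 : HeightOneSpectrum (𝓞 L), Ov (𝔮 q) 𝔓 → 𝔓.valuation L θ = 1 →
        U0 𝔓 ((q : L) * θ) x) := by
  have key : ∀ 𝔓 : HeightOneSpectrum (𝓞 L), (∀ 𝔭 ∈ T, ¬ Ov 𝔭 𝔓) → (∀ q ∈ J, ¬ Ov (𝔮 q) 𝔓) →
      𝔓.valuation L η = 1 → Ev 𝔓 x := by
    intro 𝔓 h1 h2 h3
    obtain ⟨𝔓', hv⟩ := hUR 𝔓 h1 h3
    rw [← ev_down hv]
    exact hC.ev 𝔓' (fun p hpT h => h1 p hpT ((ov_down hv p).1 h))
      (fun q hq h => h2 q hq ((ov_down hv _).1 h)) (by rw [hv]; exact h3)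
  refine ⟨fun 𝔓 h𝔓 => ?_, fun q hq 𝔓 h1 h2 => ?_⟩
  · by_cases hP : ∃ 𝔭 ∈ T, Ov 𝔭 𝔓
    · obtain ⟨p, hpT, hp𝔓⟩ := hP
      exact hT p hpT x hx hN 𝔓 hp𝔓
    · push_neg at hP
      by_cases hQ : ∃ q ∈ J, Ov (𝔮 q) 𝔓
      · obtain ⟨q, hq, hq𝔓⟩ := hQ
        exact hPARQ q hq x hx hN 𝔓 hq𝔓 (lt_of_le_of_ne (hθ 𝔓) (h𝔓 q hq hq𝔓))
      · push_neg at hQ
        by_cases h1 : 𝔓.valuation L η = 1
        · exact key 𝔓 hP hQ h1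
        · obtain ⟨v, hv⟩ := exists_bel F 𝔓
          have hp𝔓 := ov_bel hv
          obtain ⟨⟨c, hc⟩, huniq⟩ := hRAM v.asIdeal v.isPrime v.ne_bot 𝔓 hp𝔓
            (lt_of_le_of_ne (hη 𝔓) h1)
          refine hPAR v.asIdeal v.isPrime v.ne_bot 𝔓 c hp𝔓 hc x hx hN fun 𝔓₁ hq hne => ?_
          refine key 𝔓₁ (fun p' hp' h => ?_) (fun q' hq' h => ?_) (huniq 𝔓₁ hq hne)
          · have := ov_uniq (hTm p' hp').1 (hTm p' hp').2 h v.isPrime v.ne_bot hq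
            exact hP p' hp' (this ▸ hp𝔓)
          · have := ov_uniq (hJm q' hq').1 (hJm q' hq').2 h v.isPrime v.ne_bot hq
            exact hQ q' hq' (this ▸ hp𝔓)
  · obtain ⟨𝔓', hv, hd⟩ := hSP q hq 𝔓 h1 h2
    have hq' : Ov (𝔮 q) 𝔓' := (ov_down hv _).2 h1
    have h3 := hC.u0 q hq 𝔓' hq' (by rw [hv]; exact h2)
    refine ⟨fun h4 => sq_down hv hd (h3.1 ((ev_down hv x).2 h4)), fun h4 => ?_⟩
    have h5 := h3.2 fun h6 => h4 ((ev_down hv x).1 h6)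
    have e : algebraMap L Ω x * ((q : Ω) * algebraMap L Ω θ) =
        algebraMap L Ω (x * ((q : L) * θ)) := by
      rw [map_mul, map_mul, map_natCast]
    rw [e] at h5
    exact sq_down hv hd h5

end base

section up

variable {F L M Ω : Type} [Field F] [NumberField F] [Field L] [NumberField L]
  [Field M] [NumberField M] [Field Ω] [NumberField Ω] [Algebra F L] [Algebra F M] [Algebra F Ω]
  [Algebra L Ω] [Algebra M Ω] [IsScalarTower F L Ω] [IsScalarTower F M Ω]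

/-- The polynomial over `M`. -/
noncomputable abbrev fO (M : Type) [Field M] [NumberField M] [Algebra F M] (f : (𝓞 F)[X]) :
    (𝓞 M)[X] := f.map (algebraMap (𝓞 F) (𝓞 M))

/-- The polynomial over `M`. -/
noncomputable abbrev fM (M : Type) [Field M] [NumberField M] [Algebra F M] (f : (𝓞 F)[X]) :
    M[X] := (fF f).map (algebraMap F M)

theorem fO_fM (f : (𝓞 F)[X]) : (fO M f).map (algebraMap (𝓞 M) M) = fM M f := by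
  rw [fO, fM, fF, Polynomial.map_map, Polynomial.map_map]
  rfl

theorem root_top {g : ℕ} {f : (𝓞 F)[X]} {θ : L} (hc : IsGen g f θ) :
    aeval (algebraMap L Ω θ) (fF f) = 0 := by
  rw [aeval_algebraMap_apply, hc.root, map_zero]

theorem root_fM {g : ℕ} {f : (𝓞 F)[X]} {θ : L} (hc : IsGen g f θ) :
    aeval (algebraMap L Ω θ) (fM M f) = 0 := by
  rw [aeval_map_algebraMap]
  exact root_top hc

theorem root_fO {g : ℕ} {f : (𝓞 F)[X]} {θ : L} (hc : IsGen g f θ) :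
    aeval (algebraMap L Ω θ) (fO M f) = 0 := by
  have h := root_fM (M := M) (Ω := Ω) hc
  rw [← fO_fM, aeval_map_algebraMap] at h
  exact h

theorem der_fM {g : ℕ} {f : (𝓞 F)[X]} {θ : L} (hc : IsGen g f θ) :
    aeval (algebraMap L Ω θ) (derivative (fM M f)) =
      algebraMap L Ω (aeval θ (derivative (fF f))) := by
  rw [fM, derivative_map, aeval_map_algebraMap, aeval_algebraMap_apply]

theorem der_fO {g : ℕ} {f : (𝓞 F)[X]} {θ : L} (hc : IsGen g f θ) :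
    aeval (algebraMap L Ω θ) (derivative (fO M f)) =
      algebraMap L Ω (aeval θ (derivative (fF f))) := by
  rw [← der_fM (M := M) hc]
  have e : derivative (fM M f) = (derivative (fO M f)).map (algebraMap (𝓞 M) M) := by
    rw [← fO_fM]
    exact derivative_map (fO M f) (algebraMap (𝓞 M) M)
  rw [e]
  exact (aeval_map_algebraMap M _ _).symm

/-- The primes at which `f'(θ)` is a unit are unramified in the compositum. -/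
theorem up_prime {g : ℕ} {f : (𝓞 F)[X]} {θ : L} (hc : IsGen g f θ)
    (hθ : M⟮algebraMap L Ω θ⟯ = ⊤) (v : HeightOneSpectrum (𝓞 F))
    (hun : ∀ w : HeightOneSpectrum (𝓞 M), Ov v.asIdeal w →
      ∀ x : F, w.valuation M (algebraMap F M x) = v.valuation F x)
    (𝔓 : HeightOneSpectrum (𝓞 L)) (h1 : Ov v.asIdeal 𝔓)
    (h2 : 𝔓.valuation L (aeval θ (derivative (fF f))) = 1) :
    ∃ 𝔓' : HeightOneSpectrum (𝓞 Ω),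
      (∀ x : L, 𝔓'.valuation Ω (algebraMap L Ω x) = 𝔓.valuation L x) ∧
      ∃ w : HeightOneSpectrum (𝓞 M),
        (∀ x : M, 𝔓'.valuation Ω (algebraMap M Ω x) = w.valuation M x) ∧ Ov v.asIdeal w := by
  obtain ⟨𝔓', e, he⟩ := Pool.Agent.N874.TQ.exists_over Ω 𝔓
  obtain ⟨w, hw⟩ := unr_top (M := M) (Ω := Ω) (hc.mon.map _) (root_fO (M := M) hc) hθ 𝔓' (by
    rw [der_fO (M := M) hc, he, h2, one_pow])
  have e0 : e ≠ 0 := by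
    rintro rfl
    obtain ⟨p₁, hp₁, a3⟩ := Pool.Agent.N891.PQ.exists_below 𝔓'
    have h3 := (Pool.Agent.N874.QM.ov_val p₁ 𝔓').1 a3
    rw [← map_natCast (algebraMap L Ω), he, pow_zero] at h3
    exact lt_irrefl _ h3
  have hw' : ∀ x : F, w.valuation M (algebraMap F M x) = 𝔓.valuation L (algebraMap F L x) ^ e := by
    intro x
    rw [← hw, ← he, ← IsScalarTower.algebraMap_apply, ← IsScalarTower.algebraMap_apply]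
  have hwp : Ov v.asIdeal w := by
    rw [ov_val]
    intro a ha
    rw [hw']
    exact pow_lt_one' ((ov_val _ _).1 h1 a ha) e0
  obtain ⟨π, hπ⟩ := v.valuation_exists_uniformizer F
  have h4 := hun w hwp π
  rw [hw', hπ] at h4
  have h5 := Pool.Agent.N874.TW.exp_pow h4
  subst h5
  exact ⟨𝔓', fun x => by rw [he, pow_one], w, hw, hwp⟩

end up

end Pool.Agent.N874.TF
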