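import Pool.Agent.N874.TF.Cnt
import Pool.Agent.N61.PF.Fin1
import Pool.Agent.N352.JB.All
import Pool.Agent.N874.QM.Gnu

/-!
# A positive proportion of all elliptic curves over a number field `F`, over many 2-extensions of `F`

Project TF (helper874), after projects TQ and PF.
-/

set_option autoImplicit false
set_option linter.all false

open Polynomial IsDedekindDomain NumberField
open Pool.Agent.N783.PF (fF Ht Bd Min Crv S_PTS SqF rd)
open Pool.Agent.N61.PF (pol eq_pol fF_eq crv_finite crv_upper ht_lower crv_of_ht exists_B disc_ne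
  pol_natDegree pol_monic)
open Pool.Agent.N874.PP (sW)
open Pool.Agent.TH115.GD (Pt)
open Pool.Agent.N874.QM (SelM PlM)
open scoped Classical

namespace Pool.Agent.N874.TF

/-- Counting by the height of the curves. -/
theorem fin_gen (h0 : S_PTS) {F : Type} [Field F] [NumberField F] {Pr : (𝓞 F)[X] → Prop}
    {Gd : 𝓞 F × 𝓞 F → Prop}
    (h1 : ∃ c : ℝ, 0 < c ∧ ∃ B₀ : ℕ, ∀ B ≥ B₀,
      {f : (𝓞 F)[X] | Ht 1 B f}.Finite ∧ c * ({f : (𝓞 F)[X] | Ht 1 B f}.ncard : ℝ) ≤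
        ({f : (𝓞 F)[X] | Ht 1 B f ∧ Irreducible (fF f) ∧ Pr f ∧ Min 1 f}.ncard : ℝ))
    (h2 : ∀ (B : ℕ) (f : (𝓞 F)[X]), Ht 1 B f → Irreducible (fF f) → Pr f →
      Gd (f.coeff 1, f.coeff 0)) :
    ∃ c : ℝ, 0 < c ∧ ∃ Y₀ : ℝ, ∀ Y : ℝ, {p : 𝓞 F × 𝓞 F | Crv Y p}.Finite ∧ (Y₀ ≤ Y →
      0 < {p : 𝓞 F × 𝓞 F | Crv Y p}.ncard ∧
      c * ({p : 𝓞 F × 𝓞 F | Crv Y p}.ncard : ℝ) ≤
        ({p : 𝓞 F × 𝓞 F | Crv Y p ∧ Gd p}.ncard : ℝ)) := by
  obtain ⟨-, C, hC, hlow, hup⟩ := h0 F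
  obtain ⟨c, hc, B₀, hmain⟩ := h1
  set d := Module.finrank ℚ F with hd
  set B₁ : ℕ := max B₀ 1 with hB₁
  refine ⟨c / (C ^ 2 * (C ^ 2 * 2 ^ (6 * d + 2))), by positivity, 27 * (B₁ : ℝ) ^ 6, ?_⟩
  intro Y
  have hfin := crv_finite (F := F) h0 Y
  refine ⟨hfin, ?_⟩
  intro hY
  have hB₁1 : 1 ≤ B₁ := le_max_right _ _
  have hB₁r : (1 : ℝ) ≤ B₁ := by exact_mod_cast hB₁1
  have hY27 : 27 ≤ Y := by
    have : (1 : ℝ) ≤ (B₁ : ℝ) ^ 6 := one_le_pow₀ hB₁r
    linarith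
  obtain ⟨B, hBB, hBY, hYB⟩ := exists_B B₁ Y hB₁1 hY
  have hB1 : 1 ≤ B := hB₁1.trans hBB
  obtain ⟨hfinH, hprop⟩ := hmain B ((le_max_left _ _).trans hBB)
  constructor
  · rw [Set.ncard_pos hfin]
    refine ⟨(1, 1), ⟨?_, ?_, ?_⟩⟩
    · norm_num
    · intro 𝔭 hp _ hcon
      apply hp.ne_top
      rw [Ideal.eq_top_iff_one]
      exact Ideal.pow_le_self (by norm_num) hcon.1
    · intro σ
      constructor
      · simp; linarith
      · simp; linarith
  · have hu := crv_upper hC hup hB1 hYB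
    have hl := ht_lower hC hlow hB1 hfinH
    rw [← hd] at hu hl
    have h5 : ({f : (𝓞 F)[X] | Ht 1 B f ∧ Irreducible (fF f) ∧ Pr f ∧ Min 1 f}.ncard : ℝ) ≤
        ({p : 𝓞 F × 𝓞 F | Crv Y p ∧ Gd p}.ncard : ℝ) := by
      have h6 := Set.ncard_le_ncard_of_injOn (fun f : (𝓞 F)[X] => (f.coeff 1, f.coeff 0))
        (s := {f : (𝓞 F)[X] | Ht 1 B f ∧ Irreducible (fF f) ∧ Pr f ∧ Min 1 f})
        (t := {p : 𝓞 F × 𝓞 F | Crv Y p ∧ Gd p})
        (fun f hf => ⟨crv_of_ht hf.1 hf.2.1 hf.2.2.2 hBY, h2 B f hf.1 hf.2.1 hf.2.2.1⟩)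
        (by
          intro f hf f' hf' h
          have e := Prod.mk.injEq .. ▸ h
          rw [eq_pol hf.1, eq_pol hf'.1, e.1, e.2])
        (hfin.subset fun p hp => hp.1)
      exact_mod_cast h6
    have hBd : 0 < (B : ℝ) ^ (5 * d) := by
      have : (0 : ℝ) < B := by exact_mod_cast hB1
      positivity
    have h7 : ({p : 𝓞 F × 𝓞 F | Crv Y p}.ncard : ℝ) ≤
        (C ^ 2 * 2 ^ (6 * d + 2)) * (C ^ 2 * ({f : (𝓞 F)[X] | Ht 1 B f}.ncard : ℝ)) :=
      hu.trans (mul_le_mul_of_nonneg_left hl (by positivity))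
    calc c / (C ^ 2 * (C ^ 2 * 2 ^ (6 * d + 2))) * ({p : 𝓞 F × 𝓞 F | Crv Y p}.ncard : ℝ)
        ≤ c / (C ^ 2 * (C ^ 2 * 2 ^ (6 * d + 2))) *
          ((C ^ 2 * 2 ^ (6 * d + 2)) * (C ^ 2 * ({f : (𝓞 F)[X] | Ht 1 B f}.ncard : ℝ))) :=
          mul_le_mul_of_nonneg_left h7 (by positivity)
      _ = c * ({f : (𝓞 F)[X] | Ht 1 B f}.ncard : ℝ) := by
          field_simp
      _ ≤ _ := hprop.trans h5

section gen

variable {F M : Type} [Field F] [NumberField F] [Field M] [NumberField M] [Algebra F M]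

/-- From the explicit 2-Selmer group to the group of points and the Tate-Shafarevich group. -/
theorem genuineF {n : ℕ} (hM : Module.finrank F M = 2 ^ n)
    {f : (𝓞 F)[X]} (hm : f.Monic) (ho : Odd f.natDegree) (hi : Irreducible (fF f))
    (h : SelM M (fM M f)) :
    Pool.Agent.N874.Jac.UniquelyTwoDivisible (fM M f) ∧
      Pool.Agent.N874.Jac.ShaTwoTrivialReal (fM M f) (𝓞 M) := by
  have hmK : (fF f).Monic := hm.map _
  have hdK : Odd (fF f).natDegree := by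
    rw [fF, hm.natDegree_map]
    exact ho
  have hF : (fM M f).Monic := hmK.map _
  have hd : Odd (fM M f).natDegree := by
    rw [fM, hmK.natDegree_map]
    exact hdK
  have hiM : Irreducible (fM M f) := Pool.Agent.N874.JM.irr_up hM hi hmK hdK
  have hsM : (fM M f).Separable := hi.separable.map
  have h2M : (2 : M) ≠ 0 := two_ne_zero
  have ht : Pool.Agent.N352.JB.SelTriv (PlM M) (fM M f) := by
    intro a h1 h2 h3
    refine h a h1 h2 (fun v => ?_) fun ρ => ?_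
    · exact h3 (v.adicCompletion M) (PlM.fin v)
    · exact @h3 ℝ _ ρ.toAlgebra (PlM.real ρ)
  refine ⟨Pool.Agent.N874.Jac.div_of _ (Pool.Agent.N352.JB.ptsT M _ h2M hF hiM hsM hd _ ht),
    fun c m hc hl hr hb => ?_⟩
  refine Pool.Agent.N352.JB.shaT M _ h2M hF hiM hsM hd _ ht c m hc (fun E _ _ hE => ?_) hb
  cases hE with
  | fin v => exact hl v
  | real ρ => exact hr ρ

theorem fM_eq (a b : 𝓞 F) : fM M (pol a b) =
    X ^ 3 + C (algebraMap F M (a : F)) * X + C (algebraMap F M (b : F)) := by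
  unfold pol
  simp [fM, fF]

/-- Finiteness of the group of points. -/
theorem pts_of (h2 : Pool.Agent.N874.QM.S_SELC) (h3 : Pool.Agent.N874.QM.S_GFC)
    (h4 : Pool.Agent.N874.QM.S_FINC) {n : ℕ} (hM : Module.finrank F M = 2 ^ n) {a b : 𝓞 F}
    (hirr : Irreducible (fF (pol a b))) (hsel : SelM M (fM M (pol a b))) :
    Finite (Pt (sW (algebraMap F M (a : F)) (algebraMap F M (b : F))) M) ∧
      Odd (Nat.card (Pt (sW (algebraMap F M (a : F)) (algebraMap F M (b : F))) M)) := by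
  have hmK : (fF (pol a b)).Monic := (pol_monic a b).map _
  have hdK : Odd (fF (pol a b)).natDegree := by
    rw [fF, (pol_monic a b).natDegree_map, pol_natDegree]
    decide
  have hiM : Irreducible (fM M (pol a b)) := Pool.Agent.N874.JM.irr_up hM hirr hmK hdK
  rw [fM_eq] at hiM hsel
  have hd := disc_ne hiM
  have hs := h2 M _ _ hd hiM hsel
  obtain ⟨hdiv, -⟩ := h3 M _ _ hd hs
  exact h4 M _ _ hd hdiv

/-- Unramified primes in terms of ideals. -/
theorem unr_of {v : HeightOneSpectrum (𝓞 F)} (h : ∀ w : HeightOneSpectrum (𝓞 M),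
    v.asIdeal.map (algebraMap (𝓞 F) (𝓞 M)) ≤ w.asIdeal →
    ¬ v.asIdeal.map (algebraMap (𝓞 F) (𝓞 M)) ≤ w.asIdeal ^ 2) : Unr v M := by
  intro w hw x
  have h1 : v.asIdeal.map (algebraMap (𝓞 F) (𝓞 M)) ≤ w.asIdeal := Ideal.map_le_iff_le_comap.2 hw
  have h2 := h w h1
  rw [Ideal.map_le_iff_le_comap, SetLike.not_le_iff_exists] at h2
  obtain ⟨a, ha, ha2⟩ := h2
  rw [Ideal.mem_comap] at ha2
  obtain ⟨v', hv'⟩ := exists_bel F w
  have hvv : v = v' := HeightOneSpectrum.ext (eq_bel hv' v.isPrime v.ne_bot hw)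
  subst hvv
  haveI hl : w.asIdeal.LiesOver v.asIdeal := ⟨by
    ext y
    rw [Ideal.mem_comap]
    exact hv' y⟩
  have e1 := fun y : F => HeightOneSpectrum.valuation_liesOver M v w y
  obtain ⟨e, he⟩ : ∃ e : ℕ, ∀ y : F, w.valuation M (algebraMap F M y) = v.valuation F y ^ e :=
    ⟨_, fun y => (e1 y).symm⟩
  have h3 : w.valuation M (algebraMap F M (a : F)) = WithZero.exp (-1 : ℤ) := by
    have := val_exp (v := w) (a := algebraMap (𝓞 F) (𝓞 M) a) (hw a ha) ha2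
    exact this
  rw [he] at h3
  have h4 : v.valuation F (a : F) < 1 := (HeightOneSpectrum.valuation_lt_one_iff_mem (K := F) v a).2 ha
  have h0 : v.valuation F (a : F) ≠ 0 := by
    intro h0
    rw [h0] at h3
    rcases Nat.eq_zero_or_pos e with he0 | he0
    · rw [he0, pow_zero] at h3
      exact absurd h3 (by
        rw [← WithZero.exp_zero]
        intro h5
        have := WithZero.exp_injective h5
        omega)
    · rw [zero_pow he0.ne'] at h3
      exact WithZero.exp_ne_zero h3.symm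
  obtain ⟨k, hk⟩ : ∃ k : ℤ, v.valuation F (a : F) = WithZero.exp k :=
    ⟨WithZero.log _, (WithZero.exp_log h0).symm⟩
  rw [hk] at h3 h4
  rw [← WithZero.exp_nsmul] at h3
  have h5 := WithZero.exp_injective h3
  rw [← WithZero.exp_zero, WithZero.exp_lt_exp] at h4
  have h6 : e = 1 := by
    rw [nsmul_eq_mul] at h5
    have h7 : (e : ℤ) * (-k) = 1 := by linarith
    have h8 : (e : ℤ) = 1 := Int.eq_one_of_mul_eq_one_right (Int.natCast_nonneg e) h7
    exact_mod_cast h8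
  rw [he, h6, pow_one]

end gen

end Pool.Agent.N874.TF
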