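import Pool.Agent.N874.TF.Abs
import Pool.Agent.N874.TW.Fld
import Pool.Agent.N170.PF.Tw

/-!
# The 2-Selmer group over the extensions: the fields

Project TF (helper874), after project TQ.
-/

set_option autoImplicit false
set_option linter.all false

open Polynomial IsDedekindDomain NumberField
open Pool.Agent.N874.PP (Ev Sq1 U0)
open Pool.Agent.N874.PM (Lies ev_down sq_down ev_sq ev_mul)
open Pool.Agent.N874.JM (LocF irr_up)
open Pool.Agent.N783.PF (Ov IsGen fF GoodS GoodF SqF Cg rd sp Dp Fam LBad Min S_GEN)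
open Pool.Agent.N783.PQ (LocIm)
open Pool.Agent.N874.QM (SelM)
open Pool.Agent.N170.PF (fF_scale)
open scoped Classical IntermediateField

namespace Pool.Agent.N874.TF

/-- The field generated by a zero of an irreducible polynomial. -/
theorem adj_equiv {K E : Type} [Field K] [Field E] [Algebra K E] {f : K[X]} (hi : Irreducible f)
    (hm : f.Monic) {Θ : E} (hroot : aeval Θ f = 0) (hrk : Module.finrank K E = f.natDegree)
    (h0 : f.natDegree ≠ 0) :
    ∃ e : AdjoinRoot f ≃ₐ[K] E, ∀ p : K[X], e (AdjoinRoot.mk f p) = aeval Θ p := by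
  haveI hfact' : Fact (Irreducible f) := ⟨hi⟩
  obtain ⟨φ, hφ⟩ : ∃ φ : AdjoinRoot f →ₐ[K] E,
      φ = AdjoinRoot.liftAlgHom f (Algebra.ofId K E) Θ hroot := ⟨_, rfl⟩
  have hφmk : ∀ p : K[X], φ (AdjoinRoot.mk f p) = aeval Θ p := by
    intro p
    have h1 := AdjoinRoot.liftAlgHom_mk f (Algebra.ofId K E) Θ hroot p
    rw [Algebra.toRingHom_ofId, ← Polynomial.aeval_def] at h1
    rw [hφ]
    exact h1
  have hφinj : Function.Injective φ := φ.toRingHom.injective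
  haveI : FiniteDimensional K (AdjoinRoot f) := hm.finite_adjoinRoot
  haveI : FiniteDimensional K E := Module.finite_of_finrank_pos (by rw [hrk]; omega)
  have hrk' : Module.finrank K (AdjoinRoot f) = Module.finrank K E := by
    rw [hrk, (AdjoinRoot.powerBasis hm.ne_zero).finrank, AdjoinRoot.powerBasis_dim]
  have hφsurj : Function.Surjective φ :=
    (LinearMap.injective_iff_surjective_of_finrank_eq_finrank (f := φ.toLinearMap) hrk').1 hφinj
  exact ⟨AlgEquiv.ofBijective φ ⟨hφinj, hφsurj⟩, fun p => hφmk p⟩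

section uni

variable {F : Type} [Field F] [NumberField F]

/-- The property of `f` for all extensions `M`. -/
def Uni (Qs : Set (Ideal (𝓞 F))) (f Φ : (𝓞 F)[X]) : Prop :=
  ∀ (M : Type) [Field M] [NumberField M] [Algebra F M] [IsGalois F M],
    (∀ v : HeightOneSpectrum (𝓞 F), (2 : 𝓞 F) ∈ v.asIdeal →
      ∃ σ : M →+* v.adicCompletion F, ∀ y : F, σ (algebraMap F M y) =
        algebraMap F (v.adicCompletion F) y) →
    (∀ ρ₀ : F →+* ℝ, ∃ ρ : M →+* ℝ, ρ.comp (algebraMap F M) = ρ₀) →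
    ∀ n : ℕ, Module.finrank F M = 2 ^ n →
    (∀ v : HeightOneSpectrum (𝓞 F), v.asIdeal ∈ Qs → Spl v M) →
    (∀ v : HeightOneSpectrum (𝓞 F), ¬ Unr v M → Irreducible (rd v.asIdeal f)) →
    SelM M (fM M Φ)

theorem rd_scaleRoots {f : (𝓞 F)[X]} (hf : f.Monic) (v : HeightOneSpectrum (𝓞 F)) (D : 𝓞 F) :
    rd v.asIdeal (f.scaleRoots D) =
      (rd v.asIdeal f).scaleRoots (Ideal.Quotient.mk v.asIdeal D) := by
  haveI := Ideal.Quotient.nontrivial_iff.2 v.isPrime.ne_top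
  rw [rd, rd, map_scaleRoots]
  rw [hf.leadingCoeff, map_one]
  exact one_ne_zero

theorem irr_mod {f : (𝓞 F)[X]} (hf : f.Monic) (v : HeightOneSpectrum (𝓞 F)) {D : 𝓞 F}
    (h : Irreducible (rd v.asIdeal (f.scaleRoots D))) : Irreducible (rd v.asIdeal f) := by
  haveI hmax : v.asIdeal.IsMaximal := v.isMaximal
  rw [rd_scaleRoots hf] at h
  letI : Field (𝓞 F ⧸ v.asIdeal) := Ideal.Quotient.field v.asIdeal
  exact Pool.Agent.N874.TW.irr_scale (hf.map _).ne_zero h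

theorem irr_mod' {f : (𝓞 F)[X]} (hf : f.Monic) (v : HeightOneSpectrum (𝓞 F)) {D : 𝓞 F}
    (hD : D ∉ v.asIdeal) (h : Irreducible (rd v.asIdeal f)) :
    Irreducible (rd v.asIdeal (f.scaleRoots D)) := by
  haveI hmax : v.asIdeal.IsMaximal := v.isMaximal
  rw [rd_scaleRoots hf]
  letI : Field (𝓞 F ⧸ v.asIdeal) := Ideal.Quotient.field v.asIdeal
  refine Pool.Agent.N874.TW.irr_scale' ?_ h
  rw [Ne, Ideal.Quotient.eq_zero_iff_mem]
  exact hD

theorem uni_self {Qs : Set (Ideal (𝓞 F))} {f : (𝓞 F)[X]} (hf : f.Monic) {D : 𝓞 F}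
    (h : Uni Qs f (f.scaleRoots D)) : Uni Qs (f.scaleRoots D) (f.scaleRoots D) := by
  intro M _ _ _ _ h2 hr n hM hQs hPr
  exact h M h2 hr n hM hQs fun v hv => irr_mod hf v (hPr v hv)

/-- The theorem on the Selmer group over all `M`. -/
theorem selM (H : Parts) (hGEN : S_GEN) (F : Type) [Field F] [NumberField F] {g : ℕ}
    (hg : 1 ≤ g) : ∃ κ : ℕ,
    ∀ (B N W : ℕ) (f₁ : (𝓞 F)[X]) (S : Finset ℕ) (𝔮 : ℕ → Ideal (𝓞 F)) (s P : ℕ → (𝓞 F)[X])
    (f : (𝓞 F)[X]), κ ≤ W → GoodF g W f₁ →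
    GoodS g W S 𝔮 s P → Fam g B W f₁ S P f → 2 ^ κ * B ≤ 4 ^ N → 1 ≤ B →
    ¬ LBad g N κ S 𝔮 P f →
    SqF g f ∧
    ∃ J ⊆ S, Irreducible (fF (f.scaleRoots ((Dp J : ℕ) : 𝓞 F))) ∧
      Uni {𝔭 | ∃ q ∈ S, 𝔭 = 𝔮 q} f (f.scaleRoots ((Dp J : ℕ) : 𝓞 F)) ∧
      Min g (f.scaleRoots ((Dp J : ℕ) : 𝓞 F)) := by
  obtain ⟨κ₁, hκ₁⟩ := H.core g F hg
  obtain ⟨κ₂, hκ₂⟩ := H.sqf g F hg
  refine ⟨max κ₁ κ₂, fun B N W f₁ S 𝔮 s P f hW hf₁ hS hF hBN hB hnb => ?_⟩
  have hBN1 : 2 ^ κ₁ * B ≤ 4 ^ N :=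
    (Nat.mul_le_mul_right _ (Nat.pow_le_pow_right (by norm_num) (le_max_left _ _))).trans hBN
  have hBN2 : 2 ^ κ₂ * B ≤ 4 ^ N :=
    (Nat.mul_le_mul_right _ (Nat.pow_le_pow_right (by norm_num) (le_max_right _ _))).trans hBN
  have hnb1 : ¬ LBad g N κ₁ S 𝔮 P f := fun h =>
    hnb (Pool.Agent.N170.PF.LBad.mono (le_max_left _ _) h)
  have hnb2 : ¬ LBad g N κ₂ S 𝔮 P f := fun h =>
    hnb (Pool.Agent.N170.PF.LBad.mono (le_max_right _ _) h)
  have hm := hF.ht.mon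
  have hd := hF.ht.deg
  have hirr : Irreducible (fF f) := H.irr F g W f₁ f hf₁ hF.one hm hd
  have hsq : SqF g f := hκ₂ B N W f₁ S 𝔮 s P f ((le_max_right _ _).trans hW) hf₁ hS hF hirr hBN2
    hB hnb2
  obtain ⟨L, _, _, _, θ, hc⟩ := hGEN F g f hm hd hirr
  obtain ⟨J, hJ, hcore⟩ := hκ₁ L f f₁ θ B N W S 𝔮 s P ((le_max_left _ _).trans hW) hc hsq hf₁ hS
    hF hBN1 hB hnb1
  have hD0 : Dp J ≠ 0 := by
    rw [Dp, Finset.prod_ne_zero_iff]
    exact fun q hq => (hS q (hJ hq)).1.ne_zero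
  have hmin := H.min g W F S J 𝔮 s P f hg hS hsq hm hd hF.con hJ
  have hD0F : ((Dp J : ℕ) : F) ≠ 0 := Nat.cast_ne_zero.2 hD0
  have hmD : (f.scaleRoots ((Dp J : ℕ) : 𝓞 F)).Monic := (monic_scaleRoots_iff _).2 hm
  have hirrD : Irreducible (fF (f.scaleRoots ((Dp J : ℕ) : 𝓞 F))) := by
    rw [fF_scale hm]
    exact Pool.Agent.N170.PF.irr_scale hD0F hirr
  refine ⟨hsq, J, hJ, hirrD, ?_, hmin⟩
  have h2i : ∀ v : HeightOneSpectrum (𝓞 F), (2 : 𝓞 F) ∈ v.asIdeal →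
      Irreducible (rd v.asIdeal f) := by
    intro v hv
    have hWv : (W : 𝓞 F) ∈ v.asIdeal := by
      obtain ⟨m, hm⟩ := hf₁.two
      rw [hm, Nat.cast_mul, Nat.cast_ofNat]
      exact Ideal.mul_mem_right _ _ hv
    rw [Pool.Agent.N78.PF.rd_eq (Pool.Agent.N78.PF.sp_le hWv) hF.one]
    exact hf₁.irr v.asIdeal v.isPrime hv
  intro M _ _ _ _ h2M hrM n hM hQs hPr
  have hmF : (fF f).Monic := hm.map _
  have hdF : (fF f).natDegree = 2 * g + 1 := by rw [fF, hm.natDegree_map, hd]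
  have hmM : (fM M f).Monic := hmF.map _
  have hdM : (fM M f).natDegree = 2 * g + 1 := by rw [fM, hmF.natDegree_map, hdF]
  have hirrM : Irreducible (fM M f) :=
    irr_up hM hirr hmF (by rw [hdF]; exact odd_two_mul_add_one g)
  obtain ⟨Ω, instF, instA, t, ht, hrk, htop, hfin, hminΩ⟩ :=
    Pool.Agent.N874.JM.exists_field hirrM hmM
  rw [hdM] at hrk
  haveI : CharZero Ω := charZero_of_injective_algebraMap (algebraMap M Ω).injective
  haveI : FiniteDimensional ℚ Ω := FiniteDimensional.trans ℚ M Ω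
  haveI : NumberField Ω := NumberField.mk
  letI : Algebra F Ω := ((algebraMap M Ω).comp (algebraMap F M)).toAlgebra
  haveI : IsScalarTower F M Ω := IsScalarTower.of_algebraMap_eq' rfl
  have ht' : aeval t (fF f) = 0 := by
    rw [fM, aeval_map_algebraMap] at ht
    exact ht
  obtain ⟨e₀, he₀⟩ := adj_equiv hirr hmF hc.root (by rw [hc.rank, hdF]) (by rw [hdF]; omega)
  let ι : L →ₐ[F] Ω := (AdjoinRoot.liftAlgHom (fF f) (Algebra.ofId F Ω) t ht').comp
    (e₀.symm : L →ₐ[F] AdjoinRoot (fF f))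
  have hι : ι θ = t := by
    have h1 := he₀ X
    rw [aeval_X] at h1
    have h2 : e₀.symm θ = AdjoinRoot.mk (fF f) X := by
      rw [← h1, AlgEquiv.symm_apply_apply]
    change AdjoinRoot.liftAlgHom (fF f) (Algebra.ofId F Ω) t ht' (e₀.symm θ) = t
    rw [h2]
    have h3 := AdjoinRoot.liftAlgHom_mk (fF f) (Algebra.ofId F Ω) t ht' X
    rw [eval₂_X] at h3
    exact h3
  letI : Algebra L Ω := ι.toRingHom.toAlgebra
  haveI : IsScalarTower F L Ω := IsScalarTower.of_algebraMap_eq fun x => (ι.commutes x).symm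
  have hθ : algebraMap L Ω θ = t := hι
  have hmain := fun h hne hN hloc hr => selM_abs (L := L) (Ω := Ω) (M := M) (θ := θ) (J := J) H
    hg hc hsq hS hF.con h2i (fun q hq v hv => hQs v ⟨q, hq, hv⟩) hPr
    hJ (by rw [hθ]; exact htop) (by rw [hθ]; exact hminΩ) h2M hrM hM hrk hcore h hne hN hloc hr
  rw [hθ] at hmain
  have hsc : fM M (f.scaleRoots ((Dp J : ℕ) : 𝓞 F)) = (fM M f).scaleRoots ((Dp J : ℕ) : M) := by
    rw [fM, fF_scale hm, map_scaleRoots]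
    · rw [map_natCast]
    · rw [hmF.leadingCoeff, map_one]
      exact one_ne_zero
  rw [hsc]
  change ∀ h : M[X], aeval (((Dp J : ℕ) : Ω) * t) h ≠ 0 →
    IsSquare (Algebra.norm M (aeval (((Dp J : ℕ) : Ω) * t) h)) →
    (∀ w : HeightOneSpectrum (𝓞 M), LocF (w.adicCompletion M)
      ((fM M f).scaleRoots ((Dp J : ℕ) : M)) h) →
    (∀ ρ : M →+* ℝ, LocIm ℝ (((fM M f).scaleRoots ((Dp J : ℕ) : M)).map ρ) (h.map ρ)) →
    IsSquare (aeval (((Dp J : ℕ) : Ω) * t) h) at hmain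
  generalize hDD : Dp J = D at hD0 hmain ⊢
  obtain ⟨F', hF'⟩ : ∃ F' : M[X], F' = (fM M f).scaleRoots (D : M) := ⟨_, rfl⟩
  have hD0M : ((D : ℕ) : M) ≠ 0 := Nat.cast_ne_zero.2 hD0
  have hirrF : Irreducible F' := by
    rw [hF']
    exact Pool.Agent.N170.PF.irr_scale hD0M hirrM
  have hmF' : F'.Monic := by
    rw [hF']
    exact (monic_scaleRoots_iff _).2 hmM
  have hdF' : F'.natDegree = 2 * g + 1 := by
    rw [hF', natDegree_scaleRoots, hdM]
  obtain ⟨Θ, hΘ⟩ : ∃ Θ : Ω, Θ = (D : Ω) * t := ⟨_, rfl⟩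
  have hrootD : aeval Θ F' = 0 := by
    have h1 := scaleRoots_eval₂_mul (p := fM M f) (algebraMap M Ω) t (D : M)
    have h3 : eval₂ (algebraMap M Ω) t (fM M f) = 0 := by
      rw [← aeval_def]
      exact ht
    rw [h3, mul_zero, map_natCast] at h1
    rw [aeval_def, hΘ, hF']
    exact h1
  intro h hcop hnorm hloc hr
  rw [← hF'] at hcop hnorm hloc hr hmain ⊢
  obtain ⟨e, hemk⟩ := adj_equiv hirrF hmF' hrootD (by rw [hrk, hdF']) (by rw [hdF']; omega)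
  have hne : aeval Θ h ≠ 0 := by
    intro h0
    obtain ⟨u, v, huv⟩ := hcop
    have := congrArg (aeval Θ) huv
    rw [map_add, map_mul, map_mul, hrootD, h0, mul_zero, mul_zero, add_zero, map_one] at this
    exact zero_ne_one this
  have hnorm' : IsSquare (Algebra.norm M (aeval Θ h)) := by
    rw [← hemk, Algebra.norm_eq_of_algEquiv]
    exact hnorm
  rw [← hΘ] at hmain
  obtain ⟨y, hy⟩ := hmain h hne hnorm' hloc hr
  obtain ⟨z, rfl⟩ := e.surjective y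
  obtain ⟨s', rfl⟩ := AdjoinRoot.mk_surjective z
  refine ⟨s', ?_⟩
  rw [← AdjoinRoot.mk_eq_zero]
  apply e.injective
  rw [map_zero, hemk, map_sub, map_pow, sub_eq_zero]
  rw [hemk] at hy
  rw [pow_two]
  exact hy

end uni

end Pool.Agent.N874.TF
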