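import Pool.Agent.N874.TF.Stm
import Pool.Agent.N874.TQ.Gen
import Pool.Agent.N874.QM.Cnd

/-!
# Extensions of a number field `F`: unramified extensions, complete splitting

Project TF (helper874), after project TQ.
-/

set_option autoImplicit false
set_option linter.all false

open Polynomial IsDedekindDomain NumberField
open Pool.Agent.N874.PP (Ev Sq1 U0)
open Pool.Agent.N783.PF (Ov)
open scoped Classical IntermediateField

namespace Pool.Agent.N874.TF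

section top

variable {M Ω : Type} [Field M] [NumberField M] [Field Ω] [NumberField Ω] [Algebra M Ω]

theorem int_of {f : (𝓞 M)[X]} {θ : Ω} (hmon : f.Monic) (hroot : aeval θ f = 0) :
    IsIntegral ℤ θ := by
  have h1 : IsIntegral (𝓞 M) θ := ⟨f, hmon, hroot⟩
  exact isIntegral_trans (R := ℤ) (A := 𝓞 M) θ h1

/-- The primes at which `f'(θ)` is a unit are unramified. -/
theorem unr_top {f : (𝓞 M)[X]} {θ : Ω}
    (hmon : f.Monic) (hroot : aeval θ f = 0) (htop : M⟮θ⟯ = ⊤) (𝔓 : HeightOneSpectrum (𝓞 Ω))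
    (h3 : 𝔓.valuation Ω (aeval θ (derivative f)) = 1) :
    ∃ w : HeightOneSpectrum (𝓞 M),
      ∀ x : M, 𝔓.valuation Ω (algebraMap M Ω x) = w.valuation M x := by
  have hinj : Function.Injective (algebraMap (𝓞 M) (𝓞 Ω)) :=
    FaithfulSMul.algebraMap_injective _ _
  have t7 : Algebra.IsIntegral (𝓞 M) (𝓞 Ω) := inferInstance
  have t6 : IsIntegralClosure (𝓞 Ω) (𝓞 M) Ω := inferInstance
  have hp0 : 𝔓.asIdeal.under (𝓞 M) ≠ ⊥ := by
    intro h0
    exact 𝔓.ne_bot (Ideal.eq_bot_of_comap_eq_bot h0)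
  let v : HeightOneSpectrum (𝓞 M) := ⟨𝔓.asIdeal.under (𝓞 M), inferInstance, hp0⟩
  have hl : 𝔓.asIdeal.LiesOver v.asIdeal := ⟨rfl⟩
  have hint : IsIntegral ℤ θ := int_of hmon hroot
  obtain ⟨y, hy⟩ := (IsIntegralClosure.isIntegral_iff (R := ℤ) (A := 𝓞 Ω)).1 hint
  have h1F : IsIntegral M θ := hint.tower_top
  haveI : FiniteDimensional M Ω := by
    have h2 : FiniteDimensional M M⟮θ⟯ := IntermediateField.adjoin.finiteDimensional h1F
    rw [htop] at h2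
    exact Module.Finite.equiv (IntermediateField.topEquiv (F := M) (E := Ω)).toLinearEquiv
  have hadj : Algebra.adjoin M {algebraMap (𝓞 Ω) Ω y} = ⊤ := by
    have h2 := IntermediateField.adjoin_simple_toSubalgebra_of_isAlgebraic h1F.isAlgebraic
    rw [hy, ← h2, htop, IntermediateField.top_toSubalgebra]
  refine ⟨v, fun x => Pool.Agent.N222.QM.UR.core (𝓞 M) M Ω (𝓞 Ω) y hadj 𝔓 ?_ v x⟩
  intro hmem
  have : FaithfulSMul (𝓞 M) (𝓞 Ω) := (faithfulSMul_iff_algebraMap_injective _ _).2 hinj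
  have : Module.IsTorsionFree (𝓞 M) (𝓞 Ω) := inferInstance
  have hgy : aeval y f = 0 := by
    apply IsFractionRing.injective (𝓞 Ω) Ω
    rw [map_zero, ← Polynomial.aeval_algebraMap_apply, hy]
    exact hroot
  have hint' : IsIntegral (𝓞 M) y := ⟨f, hmon, hgy⟩
  have hdvd : minpoly (𝓞 M) y ∣ f := minpoly.isIntegrallyClosed_dvd hint' hgy
  obtain ⟨q, hq⟩ := hdvd
  have h1 : aeval y (derivative f) = aeval y (derivative (minpoly (𝓞 M) y)) * aeval y q := by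
    have h2 := congrArg (fun p : (𝓞 M)[X] => aeval y (derivative p)) hq
    simp only [derivative_mul, map_add, map_mul, minpoly.aeval, zero_mul, add_zero] at h2
    exact h2
  have h2 : aeval y (derivative f) ∈ 𝔓.asIdeal := by
    rw [h1]
    exact Ideal.mul_mem_right _ _ hmem
  have h4 : 𝔓.valuation Ω (algebraMap (𝓞 Ω) Ω (aeval y (derivative f))) < 1 := by
    rw [HeightOneSpectrum.valuation_lt_one_iff_mem]
    exact h2
  rw [← Polynomial.aeval_algebraMap_apply, hy, h3] at h4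
  exact lt_irrefl _ h4

end top

section dens

variable {F M : Type} [Field F] [NumberField F] [Field M] [NumberField M] [Algebra F M]

/-- Complete splitting: approximation by elements of `F`. -/
theorem dens1 {q : ℕ} (w : HeightOneSpectrum (𝓞 M))
    (h1 : w.valuation M (q : M) = WithZero.exp (-1 : ℤ))
    (h2 : Function.Surjective ((Ideal.Quotient.mk w.asIdeal).comp (algebraMap (𝓞 F) (𝓞 M)))) (s : M)
    (hs : s ≠ 0) : ∃ s₀ : F, w.valuation M (s - algebraMap F M s₀) < w.valuation M s := by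
  have hQ0 : (q : M) ≠ 0 := by
    intro h0
    rw [h0, map_zero] at h1
    exact WithZero.exp_ne_zero h1.symm
  obtain ⟨m, hm⟩ : ∃ m : ℤ, w.valuation M s = WithZero.exp m :=
    ⟨WithZero.log _, (WithZero.exp_log ((Valuation.ne_zero_iff _).2 hs)).symm⟩
  set u : M := s * (q : M) ^ m with hu
  have hwu : w.valuation M u = 1 := by
    rw [hu, map_mul, map_zpow₀, h1, hm, ← WithZero.exp_zsmul, ← WithZero.exp_add]
    simp
  obtain ⟨a, ha⟩ := w.exists_valuation_sub_lt_of_integer hwu.le 1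
  rw [Units.val_one] at ha
  obtain ⟨c, hc⟩ := h2 (Ideal.Quotient.mk _ a)
  have ecc : algebraMap (𝓞 M) M (algebraMap (𝓞 F) (𝓞 M) c) = algebraMap F M (c : F) := rfl
  have hca : w.valuation M (algebraMap F M (c : F) - algebraMap (𝓞 M) M a) < 1 := by
    rw [← ecc, ← map_sub, HeightOneSpectrum.valuation_lt_one_iff_mem]
    exact Ideal.Quotient.eq.1 hc
  have huc : w.valuation M (u - algebraMap F M (c : F)) < 1 := by
    have e : u - algebraMap F M (c : F) =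
        - ((algebraMap (𝓞 M) M a - u) + (algebraMap F M (c : F) - algebraMap (𝓞 M) M a)) := by ring
    rw [e, Valuation.map_neg]
    exact (Valuation.map_add _ _ _).trans_lt (max_lt ha hca)
  have hQm : (q : M) ^ m ≠ 0 := zpow_ne_zero _ hQ0
  refine ⟨(c : F) * ((q : F) ^ m)⁻¹, ?_⟩
  have e1 : s - algebraMap F M ((c : F) * ((q : F) ^ m)⁻¹) =
      (u - algebraMap F M (c : F)) * ((q : M) ^ m)⁻¹ := by
    rw [map_mul, map_inv₀, map_zpow₀, map_natCast, hu, sub_mul, mul_assoc,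
      mul_inv_cancel₀ hQm, mul_one]
  have e2 : s = u * ((q : M) ^ m)⁻¹ := by
    rw [hu, mul_assoc, mul_inv_cancel₀ hQm, mul_one]
  rw [e1]
  conv_rhs => rw [e2]
  rw [map_mul, map_mul, hwu]
  refine (mul_lt_mul_iff_left₀ ?_).2 huc
  rw [zero_lt_iff]
  exact (Valuation.ne_zero_iff _).2 (inv_ne_zero hQm)

/-- The prime below. -/
theorem exists_bel (F : Type) [Field F] [NumberField F] [Algebra F M]
    (w : HeightOneSpectrum (𝓞 M)) : ∃ v : HeightOneSpectrum (𝓞 F),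
    ∀ a : 𝓞 F, a ∈ v.asIdeal ↔ algebraMap (𝓞 F) (𝓞 M) a ∈ w.asIdeal := by
  have t7 : Algebra.IsIntegral (𝓞 F) (𝓞 M) := inferInstance
  have hp0 : w.asIdeal.under (𝓞 F) ≠ ⊥ := by
    intro h0
    exact w.ne_bot (Ideal.eq_bot_of_comap_eq_bot h0)
  exact ⟨⟨w.asIdeal.under (𝓞 F), inferInstance, hp0⟩, fun a => Iff.rfl⟩

theorem ov_bel {w : HeightOneSpectrum (𝓞 M)} {v : HeightOneSpectrum (𝓞 F)}
    (h : ∀ a : 𝓞 F, a ∈ v.asIdeal ↔ algebraMap (𝓞 F) (𝓞 M) a ∈ w.asIdeal) : Ov v.asIdeal w :=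
  fun a ha => (h a).1 ha

/-- The prime below is unique. -/
theorem eq_bel {w : HeightOneSpectrum (𝓞 M)} {v : HeightOneSpectrum (𝓞 F)}
    (h : ∀ a : 𝓞 F, a ∈ v.asIdeal ↔ algebraMap (𝓞 F) (𝓞 M) a ∈ w.asIdeal) {𝔭 : Ideal (𝓞 F)}
    (hp : 𝔭.IsPrime) (h0 : 𝔭 ≠ ⊥) (ho : Ov 𝔭 w) : 𝔭 = v.asIdeal := by
  have hmax : 𝔭.IsMaximal := hp.isMaximal h0
  exact hmax.eq_of_le v.isPrime.ne_top fun a ha => (h a).2 (ho a ha)

theorem ov_uniq {w : HeightOneSpectrum (𝓞 M)} {𝔭 𝔭' : Ideal (𝓞 F)}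
    (hp : 𝔭.IsPrime) (h0 : 𝔭 ≠ ⊥) (ho : Ov 𝔭 w) (hp' : 𝔭'.IsPrime) (h0' : 𝔭' ≠ ⊥)
    (ho' : Ov 𝔭' w) : 𝔭 = 𝔭' := by
  obtain ⟨v, hv⟩ := exists_bel F w
  rw [eq_bel hv hp h0 ho, eq_bel hv hp' h0' ho']

theorem ov_val (𝔭 : Ideal (𝓞 F)) (w : HeightOneSpectrum (𝓞 M)) :
    Ov 𝔭 w ↔ ∀ a ∈ 𝔭, w.valuation M (algebraMap F M (a : F)) < 1 := by
  have h1 : ∀ a : 𝓞 F, w.valuation M (algebraMap F M (a : F)) < 1 ↔
      algebraMap (𝓞 F) (𝓞 M) a ∈ w.asIdeal := by
    intro a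
    have e : algebraMap F M (a : F) = algebraMap (𝓞 M) M (algebraMap (𝓞 F) (𝓞 M) a) := rfl
    rw [e, HeightOneSpectrum.valuation_lt_one_iff_mem]
  constructor
  · intro h a ha
    exact (h1 a).2 (h a ha)
  · intro h a ha
    exact (h1 a).1 (h a ha)

end dens

section tower

variable {F L Ω : Type} [Field F] [NumberField F] [Field L] [NumberField L] [Field Ω]
  [NumberField Ω] [Algebra F L] [Algebra F Ω] [Algebra L Ω] [IsScalarTower F L Ω]

theorem ov_down {𝔓 : HeightOneSpectrum (𝓞 L)} {𝔓' : HeightOneSpectrum (𝓞 Ω)}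
    (hv : ∀ x : L, 𝔓'.valuation Ω (algebraMap L Ω x) = 𝔓.valuation L x) (𝔭 : Ideal (𝓞 F)) :
    Ov 𝔭 𝔓' ↔ Ov 𝔭 𝔓 := by
  rw [ov_val, ov_val]
  refine forall₂_congr fun a _ => ?_
  rw [IsScalarTower.algebraMap_apply F L Ω, hv]

theorem val_int_le {a : 𝓞 L} (𝔓 : HeightOneSpectrum (𝓞 L)) : 𝔓.valuation L (a : L) ≤ 1 :=
  𝔓.valuation_le_one a

theorem ov_lies {𝔓 : HeightOneSpectrum (𝓞 L)} {𝔓' : HeightOneSpectrum (𝓞 Ω)}
    (h : Pool.Agent.N874.PM.Lies (M := L) (Ω := Ω) 𝔓 𝔓') (𝔭 : Ideal (𝓞 F)) :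
    Ov 𝔭 𝔓 ↔ Ov 𝔭 𝔓' := by
  rw [ov_val, ov_val]
  refine forall₂_congr fun a _ => ?_
  rw [IsScalarTower.algebraMap_apply F L Ω]
  constructor
  · exact h.lt _
  · intro h1
    by_contra h2
    have h3 : 𝔓.valuation L (algebraMap F L (a : F)) ≤ 1 := by
      have e : algebraMap F L (a : F) = algebraMap (𝓞 L) L (algebraMap (𝓞 F) (𝓞 L) a) := rfl
      rw [e]
      exact 𝔓.valuation_le_one _
    have h4 : 𝔓.valuation L (algebraMap F L (a : F)) = 1 := le_antisymm h3 (not_lt.1 h2)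
    have h5 := h.le (algebraMap F L (a : F))⁻¹ (by rw [map_inv₀, h4, inv_one])
    rw [map_inv₀, map_inv₀] at h5
    have h6 : 𝔓'.valuation Ω (algebraMap L Ω (algebraMap F L (a : F))) ≠ 0 := by
      rw [Valuation.ne_zero_iff, Ne, map_eq_zero]
      intro h0
      rw [h0, map_zero] at h4
      exact zero_ne_one h4
    have h7 := (inv_le_one₀ (zero_lt_iff.2 h6)).1 h5
    exact absurd h1 (not_lt.2 h7)

end tower

end Pool.Agent.N874.TF
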