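import Pool.Agent.N874.TF.Cnd
import Pool.Agent.N874.TQ.Top
import Pool.Agent.N78.PF.Loc

/-!
# The conditions for elements which are locally in the image, over the extension

Project TF (helper874), after project TQ.
-/

set_option autoImplicit false
set_option linter.all false

open Polynomial IsDedekindDomain NumberField
open Pool.Agent.N874.PP (Ev Sq1 U0)
open Pool.Agent.N874.PM (Lies ev_down sq_down ev_sq ev_mul)
open Pool.Agent.N874.JM (LocF)
open Pool.Agent.N783.PF (Ov IsGen fF GoodS SqF Cg rd S_CSQ)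
open Pool.Agent.N874.QM (val_eq_of ov_prod below_unique)
open scoped Classical IntermediateField

namespace Pool.Agent.N874.TF

section spl

variable {F : Type} [Field F] [NumberField F]

/-- `M` is unramified over `v`. -/
def Unr (v : HeightOneSpectrum (𝓞 F)) (M : Type) [Field M] [NumberField M] [Algebra F M] : Prop :=
  ∀ w : HeightOneSpectrum (𝓞 M), Ov v.asIdeal w →
    ∀ x : F, w.valuation M (algebraMap F M x) = v.valuation F x

/-- `v` splits completely in `M`. -/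
def Spl (v : HeightOneSpectrum (𝓞 F)) (M : Type) [Field M] [NumberField M] [Algebra F M] : Prop :=
  Unr v M ∧ ∀ w : HeightOneSpectrum (𝓞 M), Ov v.asIdeal w →
    Function.Surjective ((Ideal.Quotient.mk w.asIdeal).comp (algebraMap (𝓞 F) (𝓞 M)))

theorem val_exp {v : HeightOneSpectrum (𝓞 F)} {a : 𝓞 F} (h1 : a ∈ v.asIdeal)
    (h2 : a ∉ v.asIdeal ^ 2) : v.valuation F (a : F) = WithZero.exp (-1 : ℤ) := by
  rw [HeightOneSpectrum.valuation_of_algebraMap]
  have h3 := (v.intValuation_le_pow_iff_mem a 1).2 (by rwa [pow_one])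
  have h4 : ¬ v.intValuation a ≤ WithZero.exp (-((2 : ℕ) : ℤ)) := fun h =>
    h2 ((v.intValuation_le_pow_iff_mem a 2).1 h)
  rw [not_le] at h4
  have h0 : v.intValuation a ≠ 0 := by
    intro h0
    rw [h0] at h4
    exact not_lt_zero' h4
  rw [← WithZero.exp_log h0, WithZero.exp_le_exp] at h3
  rw [← WithZero.exp_log h0, WithZero.exp_lt_exp] at h4
  rw [← WithZero.exp_log h0]
  congr 1
  push_cast at h3 h4
  omega

end spl

section top

variable {F L M Ω : Type} [Field F] [NumberField F] [Field L] [NumberField L]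
  [Field M] [NumberField M] [Field Ω] [NumberField Ω] [Algebra F L] [Algebra F M] [Algebra F Ω]
  [Algebra L Ω] [Algebra M Ω] [IsScalarTower F L Ω] [IsScalarTower F M Ω]

/-- Irreducibility modulo `w`. -/
theorem irr_top {v : HeightOneSpectrum (𝓞 F)} (w : HeightOneSpectrum (𝓞 M))
    (hs : Function.Surjective ((Ideal.Quotient.mk w.asIdeal).comp (algebraMap (𝓞 F) (𝓞 M))))
    (h1 : Ov v.asIdeal w) {h : (𝓞 F)[X]} (hirr : Irreducible (rd v.asIdeal h)) :
    Irreducible ((fO M h).map (Ideal.Quotient.mk w.asIdeal)) := by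
  have hker : v.asIdeal = RingHom.ker ((Ideal.Quotient.mk w.asIdeal).comp
      (algebraMap (𝓞 F) (𝓞 M))) := by
    haveI : v.asIdeal.IsMaximal := v.isMaximal
    refine Ideal.IsMaximal.eq_of_le this ?_ ?_
    · haveI := Ideal.Quotient.nontrivial_iff.2 w.isPrime.ne_top
      exact RingHom.ker_ne_top _
    · intro a ha
      rw [RingHom.mem_ker, RingHom.comp_apply, Ideal.Quotient.eq_zero_iff_mem]
      exact h1 a ha
  let φ : (𝓞 F ⧸ v.asIdeal) ≃+* (𝓞 M ⧸ w.asIdeal) :=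
    (Ideal.quotEquivOfEq hker).trans (RingHom.quotientKerEquivOfSurjective hs)
  have e : (fO M h).map (Ideal.Quotient.mk w.asIdeal) =
      Polynomial.mapEquiv φ (rd v.asIdeal h) := by
    rw [Polynomial.mapEquiv_apply, fO, Polynomial.map_map, rd, Polynomial.map_map]
    congr 1
  rw [e]
  exact (MulEquiv.irreducible_iff (Polynomial.mapEquiv φ)).2 hirr

theorem ov_nat {q : ℕ} {𝔭 : Ideal (𝓞 F)} (hq : (q : 𝓞 F) ∈ 𝔭) {w : HeightOneSpectrum (𝓞 M)}
    (h : Ov 𝔭 w) : Pool.Agent.N783.PQ.Ov q w := by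
  have := h _ hq
  rwa [map_natCast] at this

/-- The prime below a prime over `𝔮 q` at which `θ` is a unit. -/
theorem q_top (hCSQ : S_CSQ) (hLIE : Pool.Agent.N874.QM.S_LIE) {g W : ℕ} {f : (𝓞 F)[X]} {θ : L}
    {S : Finset ℕ} {𝔮 : ℕ → Ideal (𝓞 F)} {s P : ℕ → (𝓞 F)[X]} (hg : 1 ≤ g) (hc : IsGen g f θ)
    (hsq : SqF g f) (hS : GoodS g W S 𝔮 s P) (hθ : M⟮algebraMap L Ω θ⟯ = ⊤)
    {q : ℕ} (hq : q ∈ S) (hcon : Cg (𝔮 q) f (X * s q))
    (hun : ∀ w : HeightOneSpectrum (𝓞 M), Ov (𝔮 q) w →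
      w.valuation M (q : M) = WithZero.exp (-1 : ℤ))
    (𝔓 : HeightOneSpectrum (𝓞 Ω)) (h1 : Ov (𝔮 q) 𝔓)
    (h2 : 𝔓.valuation Ω (algebraMap L Ω θ) = 1) :
    𝔓.valuation Ω (q : Ω) = WithZero.exp (-1 : ℤ) ∧
    (∀ c : 𝓞 F, c ∉ 𝔮 q → Sq1 𝔓 (algebraMap F Ω (c : F))) := by
  obtain ⟨𝔭, hl, hO⟩ := hLIE L Ω 𝔓
  have h1' : Ov (𝔮 q) 𝔭 := (ov_lies hl _).2 h1
  have hqp := (hS q hq).1
  have hqq : (q : 𝓞 F) ∈ 𝔮 q := (hS q hq).2.2.2.2.2.2.1
  have hpr : (𝔮 q).IsPrime := (hS q hq).2.2.2.2.2.1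
  have hθle : 𝔭.valuation L θ ≤ 1 := Pool.Agent.N78.PF.val_theta hc 𝔭
  have h2' : 𝔭.valuation L θ = 1 := by
    by_contra hne
    have := hl.lt θ (lt_of_le_of_ne hθle hne)
    rw [h2] at this
    exact lt_irrefl _ this
  obtain ⟨c1, -, hη, -⟩ := hCSQ g W F L f θ S 𝔮 s P hg hc hsq hS q hq hcon 𝔭 h1' h2'
  have hunit : ∀ x : L, 𝔭.valuation L x = 1 → 𝔓.valuation Ω (algebraMap L Ω x) = 1 := by
    intro x hx
    refine le_antisymm (hl.le _ hx.le) ?_
    have h3 := hl.le x⁻¹ (by rw [map_inv₀, hx, inv_one])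
    rw [map_inv₀, map_inv₀] at h3
    exact (inv_le_one₀ (by
      rw [zero_lt_iff, Valuation.ne_zero_iff, Ne, map_eq_zero]
      intro h0
      rw [h0, map_zero] at hx
      exact zero_ne_one hx)).1 h3
  have hη' := hunit _ hη
  obtain ⟨w, hw⟩ := unr_top (M := M) (Ω := Ω) (hc.mon.map _) (root_fO (M := M) hc) hθ 𝔓
    (by rw [der_fO (M := M) hc]; exact hη')
  have hwQ : Ov (𝔮 q) w := (ov_down hw _).1 h1
  refine ⟨?_, fun c hcq => ?_⟩
  · rw [← map_natCast (algebraMap M Ω), hw]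
    exact hun w hwQ
  · obtain ⟨z, hz⟩ := c1 c hcq
    have h4 : 𝔭.valuation L (algebraMap F L (c : F)) = 1 := by
      have e : algebraMap F L (c : F) = algebraMap (𝓞 L) L (algebraMap (𝓞 F) (𝓞 L) c) := rfl
      refine le_antisymm (by rw [e]; exact 𝔭.valuation_le_one _) (not_lt.1 fun h => hcq ?_)
      obtain ⟨v, hv⟩ := exists_bel F 𝔭
      have h0 : 𝔮 q ≠ ⊥ := by
        intro h0
        rw [h0, Ideal.mem_bot] at hqq
        exact hqp.ne_zero (by exact_mod_cast hqq)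
      rw [eq_bel hv hpr h0 h1', hv, ← HeightOneSpectrum.valuation_lt_one_iff_mem (K := L)]
      rw [e] at h
      exact h
    have h5 := hunit _ h4
    refine ⟨algebraMap L Ω z, ?_⟩
    rw [h4] at hz
    rw [IsScalarTower.algebraMap_apply F L Ω, h5, ← map_pow, ← map_sub]
    exact hl.lt _ hz

theorem cnd_top (hCSQ : S_CSQ) (hLIE : Pool.Agent.N874.QM.S_LIE)
    (hLOC1 : Pool.Agent.N874.JM.S_LOC1) (hLOC2 : Pool.Agent.N874.JM.S_LOC2) {g W : ℕ}
    {f : (𝓞 F)[X]} {θ : L} {S J : Finset ℕ} {𝔮 : ℕ → Ideal (𝓞 F)} {T : Set (Ideal (𝓞 F))}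
    {s P : ℕ → (𝓞 F)[X]}
    (hg : 1 ≤ g) (hc : IsGen g f θ) (hsq : SqF g f) (hS : GoodS g W S 𝔮 s P)
    (hcon : ∀ q ∈ S, Cg (𝔮 q) f (X * s q)) (hθ : M⟮algebraMap L Ω θ⟯ = ⊤)
    (hQs : ∀ q ∈ S, ∀ v : HeightOneSpectrum (𝓞 F), v.asIdeal = 𝔮 q → Spl v M)
    (h2T : ∀ v : HeightOneSpectrum (𝓞 F), (2 : 𝓞 F) ∈ v.asIdeal → v.asIdeal ∈ T)
    (hST : ∀ q ∈ S, ∀ v : HeightOneSpectrum (𝓞 F), (q : 𝓞 F) ∈ v.asIdeal → v.asIdeal ≠ 𝔮 q →
      v.asIdeal ∈ T) (hJ : J ⊆ S) {h : M[X]}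
    (hloc : ∀ w : HeightOneSpectrum (𝓞 M), LocF (w.adicCompletion M)
      ((fM M f).scaleRoots ((∏ q ∈ J, q : ℕ) : M)) h)
    (h0 : aeval (((∏ q ∈ J, q : ℕ) : Ω) * algebraMap L Ω θ) h ≠ 0) :
    Cnd J 𝔮 T (algebraMap L Ω θ)
      (algebraMap L Ω (aeval θ (derivative (fF f))))
      (aeval (((∏ q ∈ J, q : ℕ) : Ω) * algebraMap L Ω θ) h) := by
  have ecn : ∀ n : ℕ, ((n : 𝓞 F) : F) = (n : F) := fun n => map_natCast (algebraMap (𝓞 F) F) n
  have hS' : ∀ q ∈ S, q.Prime := fun q hq => (hS q hq).1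
  have hmon : (fM M f).Monic := (hc.mon.map _).map _
  have hdeg : (fM M f).natDegree = 2 * g + 1 := by
    rw [fM, (hc.mon.map _).natDegree_map, hc.mon.natDegree_map, hc.deg]
  have hroot : aeval (algebraMap L Ω θ) (fM M f) = 0 := root_fM hc
  have hder : aeval (algebraMap L Ω θ) (derivative (fM M f)) =
      algebraMap L Ω (aeval θ (derivative (fF f))) := der_fM hc
  have hcoef : ∀ (w : HeightOneSpectrum (𝓞 M)) (i : ℕ), w.valuation M ((fM M f).coeff i) ≤ 1 := by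
    intro w i
    rw [← fO_fM, coeff_map]
    exact w.valuation_le_one _
  refine ⟨fun 𝔓 h1 h2 h3 => ?_, fun q hq 𝔓 h𝔓 h3 => ?_⟩
  · obtain ⟨w, hw, hO⟩ := hLIE M Ω 𝔓
    obtain ⟨v, hv⟩ := exists_bel F w
    have hv𝔓 : Ov v.asIdeal 𝔓 := (ov_lies hw _).1 (ov_bel hv)
    have v2 : w.valuation M 2 = 1 := by
      have := val_eq_of 2 w fun h => h1 v.asIdeal (h2T v (by
        rw [hv, map_ofNat]
        have h' : ((2 : ℕ) : 𝓞 M) ∈ w.asIdeal := h
        rwa [Nat.cast_ofNat] at h')) hv𝔓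
      rwa [Nat.cast_ofNat] at this
    have hD : w.valuation M ((∏ q ∈ J, q : ℕ) : M) = 1 := by
      refine val_eq_of _ w fun h => ?_
      obtain ⟨q, hq, h'⟩ := ov_prod h
      have hqv : (q : 𝓞 F) ∈ v.asIdeal := by
        rw [hv, map_natCast]
        exact h'
      by_cases hvq : v.asIdeal = 𝔮 q
      · exact h2 q hq (hvq ▸ hv𝔓)
      · exact h1 _ (hST q (hJ hq) v hqv hvq) hv𝔓
    have e3 : algebraMap M Ω ((∏ q ∈ J, q : ℕ) : M) = ((∏ q ∈ J, q : ℕ) : Ω) :=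
      map_natCast (algebraMap M Ω) _
    have h4 := hLOC1 M Ω (𝓞 M) (𝓞 Ω) w 𝔓 hw v2 (fM M f) h
      ((∏ q ∈ J, q : ℕ) : M) (algebraMap L Ω θ) hmon (by rw [hdeg]; exact odd_two_mul_add_one g)
      (hcoef w) hroot
      (by rw [hder]; exact h3) hD (hloc w) (by rw [e3]; exact h0)
    rw [e3] at h4
    exact h4
  · have hqS := hJ hq
    have hqp := hS' q hqS
    have hqq : (q : 𝓞 F) ∈ 𝔮 q := (hS q hqS).2.2.2.2.2.2.1
    have hpr : (𝔮 q).IsPrime := (hS q hqS).2.2.2.2.2.1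
    have hq0 : 𝔮 q ≠ ⊥ := by
      intro h0
      rw [h0, Ideal.mem_bot] at hqq
      exact hqp.ne_zero (by exact_mod_cast hqq)
    obtain ⟨v, hv⟩ : ∃ v : HeightOneSpectrum (𝓞 F), v.asIdeal = 𝔮 q := ⟨⟨𝔮 q, hpr, hq0⟩, rfl⟩
    have hspl := hQs q hqS v hv
    have hvq : v.valuation F (q : F) = WithZero.exp (-1 : ℤ) := by
      have := val_exp (v := v) (a := (q : 𝓞 F)) (by rw [hv]; exact hqq)
        ((hS q hqS).2.2.2.2.1 v.asIdeal v.isPrime)
      rwa [ecn] at this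
    have hun : ∀ w : HeightOneSpectrum (𝓞 M), Ov (𝔮 q) w →
        w.valuation M (q : M) = WithZero.exp (-1 : ℤ) := by
      intro w hw
      have := hspl.1 w (by rw [hv]; exact hw) (q : F)
      rwa [map_natCast, hvq] at this
    obtain ⟨w, hw, hO⟩ := hLIE M Ω 𝔓
    have hqw : Ov (𝔮 q) w := (ov_lies hw _).2 h𝔓
    have hqw' : Pool.Agent.N783.PQ.Ov q w := ov_nat hqq hqw
    have v2 : w.valuation M 2 = 1 := by
      have := val_eq_of 2 w fun h => by
        have h' := below_unique hqp Nat.prime_two hqw' h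
        have h8 := (hS q hqS).2.2.2.1
        omega
      rwa [Nat.cast_ofNat] at this
    haveI : Finite (𝓞 M ⧸ w.asIdeal) := Ideal.finiteQuotientOfFreeOfNeBot _ w.ne_bot
    haveI : Finite (𝓞 Ω ⧸ 𝔓.asIdeal) := Ideal.finiteQuotientOfFreeOfNeBot _ 𝔓.ne_bot
    obtain ⟨h5, h6⟩ := q_top hCSQ hLIE hg hc hsq hS hθ hqS (hcon q hqS) hun 𝔓 h𝔓 h3
    have hprod : (∏ p ∈ J, p) = q * ∏ p ∈ J.erase q, p := (Finset.mul_prod_erase J id hq).symm
    have hnd : ¬ q ∣ ∏ p ∈ J.erase q, p := by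
      intro hd
      obtain ⟨p, hp, hqp'⟩ := (hqp.prime.dvd_finset_prod_iff _).1 hd
      have hp' := Finset.mem_erase.1 hp
      exact hp'.1 (((Nat.prime_dvd_prime_iff_eq hqp (hS' p (hJ hp'.2))).1 hqp').symm)
    have hnm : ∀ n : ℕ, ¬ q ∣ n → (n : 𝓞 F) ∉ 𝔮 q := by
      intro n hn hmem
      have hcop : Nat.Coprime q n := (hqp.coprime_iff_not_dvd).2 hn
      obtain ⟨a, b, hab⟩ := Nat.isCoprime_iff_coprime.2 hcop
      apply hpr.ne_top
      rw [Ideal.eq_top_iff_one]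
      have h8 : ((a : ℤ) : 𝓞 F) * (q : 𝓞 F) + ((b : ℤ) : 𝓞 F) * (n : 𝓞 F) = 1 := by
        have h9 := congrArg (fun z : ℤ => (z : 𝓞 F)) hab
        push_cast at h9
        exact h9
      rw [← h8]
      exact Ideal.add_mem _ (Ideal.mul_mem_left _ _ hqq) (Ideal.mul_mem_left _ _ hmem)
    have hD' : w.valuation M ((∏ p ∈ J.erase q, p : ℕ) : M) = 1 := by
      refine val_eq_of _ w fun h => ?_
      obtain ⟨p, hp, hp'⟩ := ov_prod h
      have hpS := hJ (Finset.mem_of_mem_erase hp)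
      exact Finset.ne_of_mem_erase hp (below_unique (hS' p hpS) hqp hp' hqw')
    have hl := hloc w
    rw [hprod, Nat.cast_mul] at hl
    have e3 : algebraMap M Ω ((q : M) * ((∏ p ∈ J.erase q, p : ℕ) : M)) =
        ((∏ p ∈ J, p : ℕ) : Ω) := by
      rw [hprod, Nat.cast_mul, map_mul, map_natCast, map_natCast]
    have hsm : (s q).Monic := (hS q hqS).2.2.2.2.2.2.2.1
    have hsd : (s q).natDegree = 2 * g := (hS q hqS).2.2.2.2.2.2.2.2.1
    have hsi : Irreducible (rd (𝔮 q) (s q)) := (hS q hqS).2.2.2.2.2.2.2.2.2.1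
    have h7 := hLOC2 M Ω (𝓞 M) (𝓞 Ω) w 𝔓 hw v2 g (fM M f) h
      (fO M (s q)) (q : M)
      ((∏ p ∈ J.erase q, p : ℕ) : M) (algebraMap L Ω θ) hg hmon hdeg
      (hsm.map _) (by rw [fO, hsm.natDegree_map, hsd])
      (irr_top (v := v) w (hspl.2 w (by rw [hv]; exact hqw)) (by rw [hv]; exact hqw)
        (by rw [hv]; exact hsi))
      (fun j => by
        have e : (fM M f).coeff j - algebraMap (𝓞 M) M ((X * fO M (s q)).coeff j) =
            algebraMap F M ((f.coeff j - (X * s q).coeff j : 𝓞 F) : F) := by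
          have e1 : (X * fO M (s q)) = fO M (X * s q) := by
            rw [fO, fO, Polynomial.map_mul, map_X]
          rw [e1, ← fO_fM, coeff_map, ← map_sub, fO, fO, coeff_map, coeff_map, ← map_sub]
          rfl
        rw [e]
        exact (ov_val _ _).1 hqw _ (hcon q hqS j)) hroot h3
      (by rw [map_natCast]; exact h5) hD'
      (by
        have := h6 (-1) (fun h => by
          apply hpr.ne_top
          rw [Ideal.eq_top_iff_one]
          exact neg_mem_iff.1 h)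
        have e0 : ((-1 : 𝓞 F) : F) = -1 := by
          have := map_neg (algebraMap (𝓞 F) F) 1
          rwa [map_one] at this
        have e : algebraMap F Ω ((-1 : 𝓞 F) : F) = -1 := by
          rw [e0, map_neg, map_one]
        rwa [e] at this)
      (by
        rw [map_natCast]
        have := h6 _ (hnm _ hnd)
        rwa [ecn, map_natCast] at this) hl
      (by rw [e3]; exact h0)
    rw [e3, map_natCast] at h7
    exact h7

end top

end Pool.Agent.N874.TF
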